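import Pool.Agent.W537.KT.Defs

/-!
# Statements of the linear algebra used for motives of K3 type
-/

namespace Pool.Agent.W537.KT

open Pool.Agent.W537.DB Matrix

variable {ι : Type} [Fintype ι] [DecidableEq ι]

/-- An orthonormal basis of every eigenspace of `P`, all of dimension `m`. -/
structure Dec (Q P : Matrix ι ι ℂ) (m : ℕ) where
  /-- the set of eigenvalues -/
  R : Type
  fin : Fintype R
  dec : DecidableEq R
  /-- the eigenvalues -/
  c : R → ℂ
  c_inj : Function.Injective c
  /-- the columns of `B s` are an orthonormal basis of the eigenspace -/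
  B : R → Matrix ι (Fin m) ℂ
  orth : ∀ s, (B s).transpose * Q * B s = 1
  orth' : ∀ s t, s ≠ t → (B s).transpose * Q * B t = 0
  compl : ∑ s, B s * ((B s).transpose * Q) = 1
  eig : ∀ s, P * B s = c s • B s

/-- KT-DEC -/
def S_DEC : Prop :=
  ∀ (ι : Type) [Fintype ι] [DecidableEq ι] (Q P : Matrix ι ι ℚ) (m : ℕ), Q.transpose = Q →
    Q.det ≠ 0 → Irreducible (minpoly ℚ P) → P.transpose * Q = Q * P →
    Fintype.card ι = m * (minpoly ℚ P).natDegree →
    Nonempty (Dec (Q.map (fun q : ℚ => (q : ℂ))) (P.map (fun q : ℚ => (q : ℂ))) m)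

/-- KT-ALT: the skew-symmetric matrices annihilate no antisymmetric form of degree `j` for
`0 < j < m`. -/
def S_ALT : Prop :=
  ∀ (m j : ℕ), 0 < j → j < m → ∀ f : Form (Fin m) (Fin j), IsAlt f →
    (∀ x : Matrix (Fin m) (Fin m) ℂ, x.transpose = -x → Annihilates x f) → f = 0

end Pool.Agent.W537.KT
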