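import Pool.Agent.W537.KT.Calc
import Pool.Agent.W537.KT.Stm
import Pool.Agent.W537.DB.HodgeLie

/-!
# The skew maps that commute with the Hodge endomorphisms
-/

set_option linter.unusedSectionVars false

namespace Pool.Agent.W537.KT

open Pool.Agent.W537.DB Matrix Pool.Agent.H204R3.SP

noncomputable section

variable {ι : Type} [Fintype ι] [DecidableEq ι] (T : K3Motive ι)

/-- The intersection form over the complex numbers. -/
def K3Motive.QC : Matrix ι ι ℂ := toC T.Q

theorem K3Motive.QC_T : T.QC.transpose = T.QC := by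
  unfold K3Motive.QC
  rw [← Matrix.transpose_map, T.Q_symm]

theorem K3Motive.Q_inv_mul : T.Q⁻¹ * T.Q = 1 :=
  Matrix.nonsing_inv_mul _ (isUnit_iff_ne_zero.2 T.Q_det)

/-- The inverse of `QC`. -/
def K3Motive.QI : Matrix ι ι ℂ := toC T.Q⁻¹

theorem K3Motive.QI_mul : T.QI * T.QC = 1 := by
  unfold K3Motive.QI K3Motive.QC
  rw [← toC_mul, T.Q_inv_mul, toC_one]

theorem K3Motive.mul_QI : T.QC * T.QI = 1 := mul_eq_one_comm.1 T.QI_mul

theorem K3Motive.QC_cancel {x y : Matrix ι ι ℂ} (h : T.QC * x = T.QC * y) : x = y := by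
  have h1 := congrArg (fun M => T.QI * M) h
  simpa only [← Matrix.mul_assoc, T.QI_mul, Matrix.one_mul] using h1

/-- The generator of the circle over the complex numbers. -/
def K3Motive.NC : Matrix ι ι ℂ := rC T.N

theorem K3Motive.NC_skew : T.NC.transpose * T.QC = -(T.QC * T.NC) := by
  have h1 := congrArg rC T.N_skew
  change rC (T.N.transpose * toR T.Q) = rC (-(toR T.Q * T.N)) at h1
  rw [rC_neg, rC_mul, rC_mul, rC_toR] at h1
  exact h1

theorem K3Motive.NC_comm {P : Matrix ι ι ℚ} (hP : T.IsHodgeEnd P) :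
    toC P * T.NC = T.NC * toC P := by
  have h1 := congrArg rC hP
  change rC (toR P * T.N) = rC (T.N * toR P) at h1
  rw [rC_mul, rC_mul, rC_toR] at h1
  exact h1

theorem K3Motive.isHodge_bil {P : Matrix ι ι ℚ} (hP : T.IsHodgeEnd P) :
    T.IsHodge (bil (T.QC * toC P)) := by
  constructor
  · intro I
    rw [bil_coeff]
    unfold K3Motive.QC
    rw [← toC_mul]
    exact ratCast_mem _ _
  · change Annihilates T.NC _
    rw [ann_bil, ← Matrix.mul_assoc, T.NC_skew, Matrix.neg_mul, Matrix.mul_assoc, Matrix.mul_assoc,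
      T.NC_comm hP, neg_add_cancel]

theorem K3Motive.one_hodgeEnd : T.IsHodgeEnd 1 := by
  unfold K3Motive.IsHodgeEnd
  rw [Matrix.map_one _ Rat.cast_zero Rat.cast_one, Matrix.one_mul, Matrix.mul_one]

/-- The skew maps that commute with the Hodge endomorphisms. -/
def K3Motive.hd : Submodule ℂ (Matrix ι ι ℂ) where
  carrier := {x | x.transpose * T.QC = -(T.QC * x) ∧ ∀ P, T.IsHodgeEnd P →
    toC P * x = x * toC P}
  zero_mem' := ⟨by rw [Matrix.transpose_zero, Matrix.zero_mul, Matrix.mul_zero, neg_zero],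
    fun P _ => by rw [Matrix.zero_mul, Matrix.mul_zero]⟩
  add_mem' := by
    rintro x y ⟨hx, hx'⟩ ⟨hy, hy'⟩
    refine ⟨?_, fun P hP => ?_⟩
    · rw [Matrix.transpose_add, Matrix.add_mul, hx, hy, Matrix.mul_add, neg_add]
    · rw [Matrix.mul_add, Matrix.add_mul, hx' P hP, hy' P hP]
  smul_mem' := by
    rintro c x ⟨hx, hx'⟩
    refine ⟨?_, fun P hP => ?_⟩
    · rw [Matrix.transpose_smul, Matrix.smul_mul, hx, Matrix.mul_smul, smul_neg]
    · rw [Matrix.mul_smul, Matrix.smul_mul, hx' P hP]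

theorem K3Motive.NC_mem : T.NC ∈ T.hd := ⟨T.NC_skew, fun _ hP => T.NC_comm hP⟩

variable {K : IntermediateField ℚ ℂ}

theorem coeff_mono {κ : Type} {K : IntermediateField ℚ ℂ} {f : Form ι κ} (hf : HasCoeff ⊥ f) :
    HasCoeff K f := by
  intro I
  obtain ⟨q, hq⟩ := IntermediateField.mem_bot.1 (hf I)
  rw [← hq]
  exact K.algebraMap_mem q

theorem K3Motive.isDRB_bil (hD : T.HodgeDeRham) {P : Matrix ι ι ℚ} (hP : T.IsHodgeEnd P) :
    T.IsDRB K (bil (T.QC * toC P)) :=
  ⟨coeff_mono (T.isHodge_bil hP).1, hD _ _ (T.isHodge_bil hP)⟩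

theorem K3Motive.QC_deRham (hD : T.HodgeDeRham) (i j : ι) :
    IsAlgebraic ℚ ((T.C⁻¹.transpose * T.QC * T.C⁻¹) i j) := by
  have h1 := hD _ _ (T.isHodge_bil T.one_hodgeEnd) ![i, j]
  rw [bil_mulVec, toC_one, Matrix.mul_one] at h1
  exact h1

theorem K3Motive.G_skew (hD : T.HodgeDeRham) {x : Matrix ι ι ℂ} (hx : x ∈ T.G K) :
    x.transpose * T.QC = -(T.QC * x) := by
  have h1 := ann_bil.1 (hx 2 _ (T.isDRB_bil hD (K := K) T.one_hodgeEnd))
  rw [toC_one, Matrix.mul_one] at h1
  exact eq_neg_of_add_eq_zero_left h1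

/-- An element of the Lie algebra commutes with `p` if the form `Q p` is annihilated. -/
theorem K3Motive.comm_of_ann {x p : Matrix ι ι ℂ} (hx : x.transpose * T.QC = -(T.QC * x))
    (h : Annihilates x (bil (T.QC * p))) : p * x = x * p := by
  have h1 := ann_bil.1 h
  rw [← Matrix.mul_assoc, hx, Matrix.neg_mul, neg_add_eq_zero, Matrix.mul_assoc,
    Matrix.mul_assoc] at h1
  exact (T.QC_cancel h1).symm

theorem K3Motive.ann_of_comm {x p : Matrix ι ι ℂ} (hx : x.transpose * T.QC = -(T.QC * x))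
    (h : p * x = x * p) : Annihilates x (bil (T.QC * p)) := by
  rw [ann_bil, ← Matrix.mul_assoc, hx, Matrix.neg_mul, neg_add_eq_zero, Matrix.mul_assoc,
    Matrix.mul_assoc, h]

theorem K3Motive.G_le_hd (hD : T.HodgeDeRham) {x : Matrix ι ι ℂ} (hx : x ∈ T.G K) :
    x ∈ T.hd :=
  ⟨T.G_skew hD hx, fun _ hP => T.comm_of_ann (T.G_skew hD hx)
    (hx 2 _ (T.isDRB_bil hD (K := K) hP))⟩

theorem K3Motive.isDRB_of (hK : ∀ x ∈ K, IsAlgebraic ℚ x) {m : ℕ} {f : Form ι (Fin m)}
    (hf : HasCoeff K f) (h : ∀ D, Annihilates (T.X D) f) : T.IsDRB K f :=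
  ⟨hf, (T.isDeRham_iff f (fun I => hK _ (hf I))).2 h⟩

/-- A subspace of matrices is spanned by matrices with entries in `K`. -/
def KSpan (K : IntermediateField ℚ ℂ) (g : Submodule ℂ (Matrix ι ι ℂ)) : Prop :=
  ∀ x ∈ g, x ∈ Submodule.span ℂ {y | y ∈ g ∧ ∀ i j, y i j ∈ K}

/-- A Lie algebra defined over `K` which contains the logarithmic derivatives of the period matrix
and annihilates the de Rham-Betti classes. -/
structure K3Motive.Gen (K : IntermediateField ℚ ℂ) (g : Submodule ℂ (Matrix ι ι ℂ)) : Prop where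
  lie : ∀ x ∈ g, ∀ y ∈ g, x * y - y * x ∈ g
  span : KSpan K g
  X_mem : ∀ D, T.X D ∈ g
  le : g ≤ T.G K

theorem K3Motive.G_gen (hK : ∀ x ∈ K, IsAlgebraic ℚ x) : T.Gen K (T.G K) where
  lie := fun _ hx _ hy m f hf => (hx m f hf).bracket (hy m f hf)
  span := fun _ hx => T.G_span hx
  X_mem := T.X_mem hK
  le := le_rfl

/-! ### Alternating forms -/

/-- The equation on the coefficients which expresses the antisymmetry. -/
def altEq {m : ℕ} (i j : Fin m) (I : Fin m → ι) : (Fin m → ι) → ℂ :=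
  fun I' => (if I' = fun k => I (Equiv.swap i j k) then 1 else 0) + if I' = I then 1 else 0

theorem altEq_sum {m : ℕ} (i j : Fin m) (I : Fin m → ι) (u : (Fin m → ι) → ℂ) :
    ∑ I', altEq i j I I' * u I' = u (fun k => I (Equiv.swap i j k)) + u I := by
  unfold altEq
  simp only [add_mul, ite_mul, one_mul, zero_mul, Finset.sum_add_distrib, Finset.sum_ite_eq',
    Finset.mem_univ, if_true]

theorem isAlt_iff {m : ℕ} (f : Form ι (Fin m)) : IsAlt f ↔ ∀ i j : Fin m, i ≠ j →
    ∀ I, ∑ I', altEq i j I I' * coeff f I' = 0 := by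
  constructor
  · intro h i j hij I
    rw [altEq_sum]
    have h1 := h i j hij (fun l => Pi.single (I l) 1)
    unfold coeff
    rw [h1, neg_add_cancel]
  · intro h i j hij v
    have h1 : f.domDomCongr (Equiv.swap i j) + f = 0 := by
      refine form_single_zero _ fun I => ?_
      have h2 := h i j hij I
      rw [altEq_sum] at h2
      exact h2
    have h2 := congrArg (fun g : Form ι (Fin m) => g v) h1
    exact eq_neg_of_add_eq_zero_left h2

variable {T}

/-- An alternating form annihilated by the Lie algebra is annihilated by all skew maps which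
commute with the Hodge endomorphisms. -/
theorem K3Motive.Gen.alt {g : Submodule ℂ (Matrix ι ι ℂ)} (hg : T.Gen K g)
    (hK : ∀ x ∈ K, IsAlgebraic ℚ x) (hKS : T.KugaSatake K) (hZ : T.Zarhin) {m : ℕ}
    {f : Form ι (Fin m)} (hf : IsAlt f) (h : ∀ x ∈ g, Annihilates x f) {x : Matrix ι ι ℂ}
    (hx : x ∈ T.hd) : Annihilates x f := by
  let S : Set ((Fin m → ι) → ℂ) :=
    {b | (∃ y ∈ g, (∀ i j, y i j ∈ K) ∧ ∃ I, b = killEq y I) ∨
      ∃ i j : Fin m, i ≠ j ∧ ∃ I, b = altEq i j I}
  have hS : ∀ b ∈ S, ∀ i, b i ∈ K := by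
    rintro _ (⟨y, _, hy, I, rfl⟩ | ⟨i, j, _, I, rfl⟩) I'
    · unfold killEq
      refine sum_mem fun k _ => sum_mem fun b _ => ?_
      split_ifs
      · exact hy _ _
      · exact zero_mem _
    · unfold altEq
      refine add_mem ?_ ?_
      · split_ifs
        · exact one_mem _
        · exact zero_mem _
      · split_ifs
        · exact one_mem _
        · exact zero_mem _
  have hw : ∀ b ∈ S, ∑ i, b i * coeff f i = 0 := by
    rintro _ (⟨y, hy, _, I, rfl⟩ | ⟨i, j, hij, I, rfl⟩)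
    · exact (ann_coeff y f).1 (h y hy) I
    · exact (isAlt_iff f).1 hf i j hij I
  have h1 := rational_span K S hS hw
  let L : ((Fin m → ι) → ℂ) →ₗ[ℂ] Form ι (Fin m) :=
    { toFun := ofCoeff
      map_add' := by
        intro u v
        refine MultilinearMap.ext fun w => ?_
        rw [_root_.add_apply, ofCoeff_apply, ofCoeff_apply, ofCoeff_apply,
          ← Finset.sum_add_distrib]
        exact Finset.sum_congr rfl fun I _ => add_mul _ _ _
      map_smul' := by
        intro c u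
        refine MultilinearMap.ext fun w => ?_
        rw [RingHom.id_apply, _root_.smul_apply, ofCoeff_apply, ofCoeff_apply, Finset.smul_sum]
        refine Finset.sum_congr rfl fun I _ => ?_
        rw [Pi.smul_apply, smul_mul_assoc] }
  have h2 : L (coeff f) ∈ (Submodule.span ℂ
      {u : (Fin m → ι) → ℂ | (∀ i, u i ∈ K) ∧ ∀ b ∈ S, ∑ i, b i * u i = 0}).map L :=
    ⟨_, h1, rfl⟩
  rw [Submodule.map_span] at h2
  have h3 : L (coeff f) = f := ofCoeff_coeff f
  rw [h3] at h2
  refine ann_form_spanC x ?_ h2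
  rintro _ ⟨u, ⟨hu1, hu2⟩, rfl⟩
  have hcu : coeff (L u) = u := coeff_ofCoeff u
  have halt : IsAlt (L u) := by
    rw [isAlt_iff]
    intro i j hij I
    rw [hcu]
    exact hu2 _ (Or.inr ⟨i, j, hij, I, rfl⟩)
  have hann : ∀ y ∈ g, Annihilates y (L u) := by
    intro y hy
    refine ann_of_span ?_ (hg.span y hy)
    rintro z ⟨hz, hzK⟩
    rw [ann_coeff, hcu]
    intro I
    exact hu2 _ (Or.inl ⟨z, hz, hzK, I, rfl⟩)
  have hdrb : T.IsDRB K (L u) := by
    refine T.isDRB_of hK (fun I => ?_) fun D => hann _ (hg.X_mem D)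
    change ofCoeff u _ ∈ K
    rw [ofCoeff_single]
    exact hu1 I
  exact ann_form_spanK K x (fun f hf => hZ x hx.1 hx.2 m f hf) (hKS m (L u) halt hdrb)

end

end Pool.Agent.W537.KT
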