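import Pool.Agent.W537.KT.Defs
import Pool.Agent.W537.DB.Cas2

/-!
# The Lie algebra that annihilates the de Rham-Betti classes
-/

set_option linter.unusedSectionVars false

namespace Pool.Agent.W537.KT

open Pool.Agent.W537.DB Matrix Pool.Agent.H204R3.SP

noncomputable section

variable {ι : Type} [Fintype ι] [DecidableEq ι]

section general

variable {κ : Type} [Fintype κ] [DecidableEq κ]

theorem ann_iff_kills (x : Matrix ι ι ℂ) (f : Form ι κ) :
    Annihilates x f ↔ Kills (Matrix.toLin' x) f := by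
  unfold Annihilates Kills
  simp only [Matrix.toLin'_apply]

theorem ann_iff (x : Matrix ι ι ℂ) (f : Form ι κ) :
    Annihilates x f ↔ killM (Matrix.toLin' x) f = 0 := by
  rw [ann_iff_kills, kills_iff]

theorem ann_zero (f : Form ι κ) : Annihilates 0 f := by
  rw [ann_iff, map_zero]
  have := killM_smul 0 0 f
  rwa [zero_smul, zero_smul] at this

theorem Annihilates.add {x y : Matrix ι ι ℂ} {f : Form ι κ} (hx : Annihilates x f)
    (hy : Annihilates y f) : Annihilates (x + y) f := by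
  rw [ann_iff] at hx hy ⊢
  rw [map_add, killM_add, hx, hy, add_zero]

theorem Annihilates.smul {x : Matrix ι ι ℂ} {f : Form ι κ} (c : ℂ) (hx : Annihilates x f) :
    Annihilates (c • x) f := by
  rw [ann_iff] at hx ⊢
  rw [map_smul, killM_smul, hx, smul_zero]

theorem Annihilates.bracket {x y : Matrix ι ι ℂ} {f : Form ι κ} (hx : Annihilates x f)
    (hy : Annihilates y f) : Annihilates (x * y - y * x) f := by
  rw [ann_iff_kills] at hx hy ⊢
  have h2 : Matrix.toLin' (x * y - y * x) = Matrix.toLin' x * Matrix.toLin' y -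
      Matrix.toLin' y * Matrix.toLin' x := by
    rw [map_sub, Matrix.toLin'_mul, Matrix.toLin'_mul]
    rfl
  rw [h2]
  exact kills_bracket hx hy

theorem ann_of_span {S : Set (Matrix ι ι ℂ)} {f : Form ι κ} (h : ∀ x ∈ S, Annihilates x f)
    {x : Matrix ι ι ℂ} (hx : x ∈ Submodule.span ℂ S) : Annihilates x f := by
  induction hx using Submodule.span_induction with
  | mem y hy => exact h y hy
  | zero => exact ann_zero f
  | add y z _ _ hy hz => exact hy.add hz
  | smul c y _ hy => exact hy.smul c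

theorem ann_form_span {R : Type*} [Semiring R] [Module R (Form ι κ)] (x : Matrix ι ι ℂ)
    (hR : ∀ (c : R) (f : Form ι κ), ∃ c' : ℂ, c • f = c' • f)
    {S : Set (Form ι κ)} (h : ∀ f ∈ S, Annihilates x f) {f : Form ι κ}
    (hf : f ∈ Submodule.span R S) : Annihilates x f := by
  rw [ann_iff]
  induction hf using Submodule.span_induction with
  | mem f hf => exact (ann_iff _ _).1 (h f hf)
  | zero =>
    have := killM_form_smul (Matrix.toLin' x) 0 (0 : Form ι κ)
    rwa [zero_smul, zero_smul] at this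
  | add f g _ _ hf hg => rw [killM_form_add, hf, hg, add_zero]
  | smul c f _ hf =>
    obtain ⟨c', hc⟩ := hR c f
    rw [hc, killM_form_smul, hf, smul_zero]

theorem ann_form_spanK (K : IntermediateField ℚ ℂ) (x : Matrix ι ι ℂ) {S : Set (Form ι κ)}
    (h : ∀ f ∈ S, Annihilates x f) {f : Form ι κ} (hf : f ∈ Submodule.span K S) :
    Annihilates x f :=
  ann_form_span (R := K) x (fun c _ => ⟨(c : ℂ), rfl⟩) h hf

theorem ann_form_spanC (x : Matrix ι ι ℂ) {S : Set (Form ι κ)}
    (h : ∀ f ∈ S, Annihilates x f) {f : Form ι κ} (hf : f ∈ Submodule.span ℂ S) :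
    Annihilates x f :=
  ann_form_span (R := ℂ) x (fun c _ => ⟨c, rfl⟩) h hf

theorem ann_coeff (x : Matrix ι ι ℂ) (f : Form ι κ) :
    Annihilates x f ↔ ∀ I, ∑ I', killEq x I I' * coeff f I' = 0 := by
  rw [ann_iff]
  constructor
  · intro h I
    rw [← killM_coeff, h]
    rfl
  · intro h
    refine form_single_zero _ fun I => ?_
    rw [killM_coeff, h]

theorem ann_co (x : Matrix ι ι ℂ) (f : Form ι κ) :
    Annihilates x f ↔ ∀ I, ∑ p : ι × ι, killCo f I p * x p.1 p.2 = 0 := by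
  rw [ann_iff_kills, kills_iff_co]

end general

variable (T : K3Motive ι)

/-- The logarithmic derivative of the period matrix. -/
def K3Motive.X (D : Derivation ℤ ℂ ℂ) : Matrix ι ι ℂ := T.C⁻¹ * T.C.map D

theorem K3Motive.det_unit : IsUnit T.C.det := (Matrix.isUnit_iff_isUnit_det _).1 T.C_unit

theorem K3Motive.inv_mul : T.C⁻¹ * T.C = 1 := Matrix.nonsing_inv_mul _ T.det_unit

theorem K3Motive.mul_inv : T.C * T.C⁻¹ = 1 := Matrix.mul_nonsing_inv _ T.det_unit

theorem K3Motive.inv_unit : IsUnit T.C⁻¹ :=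
  ⟨⟨T.C⁻¹, T.C, T.inv_mul, T.mul_inv⟩, rfl⟩

theorem K3Motive.der_C (D : Derivation ℤ ℂ ℂ) : T.C.map D = T.C * T.X D := by
  unfold K3Motive.X
  rw [← Matrix.mul_assoc, T.mul_inv, Matrix.one_mul]

theorem K3Motive.der_inv (D : Derivation ℤ ℂ ℂ) : T.C⁻¹.map D = -(T.X D * T.C⁻¹) := by
  have h1 := der_mul D T.C T.C⁻¹
  rw [T.mul_inv, der_one, T.der_C] at h1
  have h2 : T.C * T.C⁻¹.map D = -(T.C * T.X D * T.C⁻¹) := by
    rw [eq_neg_iff_add_eq_zero, add_comm]
    exact h1.symm
  have h3 := congrArg (fun M => T.C⁻¹ * M) h2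
  simp only [← Matrix.mul_assoc, Matrix.mul_neg, T.inv_mul, Matrix.one_mul] at h3
  exact h3

/-- The derivative of the de Rham coefficients. -/
theorem K3Motive.der_coeff (D : Derivation ℤ ℂ ℂ) {m : ℕ} (f : Form ι (Fin m))
    (hf : ∀ I : Fin m → ι, IsAlgebraic ℚ (f (fun l => Pi.single (I l) 1)))
    (I : Fin m → ι) :
    D (f (fun l => T.C⁻¹ *ᵥ (Pi.single (I l) 1))) =
      -(killM (Matrix.toLin' (T.X D)) f (fun l => T.C⁻¹ *ᵥ (Pi.single (I l) 1))) := by
  set w : Fin m → ι → ℂ := fun l => T.C⁻¹ *ᵥ (Pi.single (I l) 1) with hw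
  have h1 : ∀ l, (fun i => D (w l i)) = -(Matrix.toLin' (T.X D) (w l)) := by
    intro l
    funext i
    have h2 : w l i = T.C⁻¹ i (I l) := by
      simp [hw]
    have h3 := congrFun (congrFun (T.der_inv D) i) (I l)
    rw [Matrix.map_apply] at h3
    rw [h2, h3, Pi.neg_apply, Matrix.neg_apply, Matrix.toLin'_apply, hw]
    simp only [Matrix.mulVec_single_one]
    rfl
  rw [der_form D f hf w, killM_apply, ← Finset.sum_neg_distrib]
  refine Finset.sum_congr rfl fun k _ => ?_
  rw [h1 k]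
  have h4 := f.map_update_smul w k (-1) (Matrix.toLin' (T.X D) (w k))
  rw [neg_one_smul, neg_one_smul] at h4
  exact h4

/-- A form with algebraic coefficients is a de Rham form if and only if it is annihilated by all
logarithmic derivatives of the period matrix. -/
theorem K3Motive.isDeRham_iff {m : ℕ} (f : Form ι (Fin m))
    (hf : ∀ I : Fin m → ι, IsAlgebraic ℚ (f (fun l => Pi.single (I l) 1))) :
    T.IsDeRham f ↔ ∀ D : Derivation ℤ ℂ ℂ, Annihilates (T.X D) f := by
  constructor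
  · intro h D
    rw [ann_iff]
    refine form_zero T.inv_unit _ fun I => ?_
    have h1 := T.der_coeff D f hf I
    rw [der_alg D (h I)] at h1
    exact neg_eq_zero.1 h1.symm
  · intro h I
    apply alg_of_der
    intro D
    rw [T.der_coeff D f hf I, (ann_iff _ _).1 (h D), _root_.zero_apply, neg_zero]

/-! ### The Lie algebra -/

/-- The matrices that annihilate all de Rham-Betti classes with coefficients in `K`. -/
def K3Motive.G (K : IntermediateField ℚ ℂ) : Submodule ℂ (Matrix ι ι ℂ) where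
  carrier := {x | ∀ (m : ℕ) (f : Form ι (Fin m)), T.IsDRB K f → Annihilates x f}
  zero_mem' := fun _ f _ => ann_zero f
  add_mem' := fun hx hy m f hf => (hx m f hf).add (hy m f hf)
  smul_mem' := fun c _ hx m f hf => (hx m f hf).smul c

variable {K : IntermediateField ℚ ℂ}

theorem K3Motive.X_mem (hK : ∀ x ∈ K, IsAlgebraic ℚ x) (D : Derivation ℤ ℂ ℂ) :
    T.X D ∈ T.G K := by
  intro m f hf
  exact (T.isDeRham_iff f (fun I => hK _ (hf.1 I))).1 hf.2 D

/-- The annihilator of a family of forms with coefficients in `K` is spanned by matrices with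
entries in `K`. -/
theorem ann_span (K : IntermediateField ℚ ℂ) (Φ : ∀ m : ℕ, Form ι (Fin m) → Prop)
    (hΦ : ∀ m f, Φ m f → HasCoeff K f) {x : Matrix ι ι ℂ}
    (hx : ∀ m f, Φ m f → Annihilates x f) :
    x ∈ Submodule.span ℂ {y | (∀ m f, Φ m f → Annihilates y f) ∧ ∀ i j, y i j ∈ K} := by
  let S : Set (ι × ι → ℂ) := {b | ∃ m, ∃ f : Form ι (Fin m), Φ m f ∧ ∃ I, b = killCo f I}
  have hS : ∀ b ∈ S, ∀ i, b i ∈ K := by
    rintro _ ⟨m, f, hf, I, rfl⟩ p
    unfold killCo
    refine sum_mem fun k _ => ?_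
    split_ifs
    · exact hΦ m f hf _
    · exact zero_mem _
  have hw : ∀ b ∈ S, ∑ p, b p * (fun p : ι × ι => x p.1 p.2) p = 0 := by
    rintro _ ⟨m, f, hf, I, rfl⟩
    exact (ann_co x f).1 (hx m f hf) I
  have h1 := rational_span K S hS hw
  let L : (ι × ι → ℂ) →ₗ[ℂ] Matrix ι ι ℂ :=
    { toFun := fun w => Matrix.of fun i j => w (i, j)
      map_add' := fun _ _ => rfl
      map_smul' := fun _ _ => rfl }
  have h2 : L (fun p : ι × ι => x p.1 p.2) ∈ (Submodule.span ℂ
      {u : ι × ι → ℂ | (∀ i, u i ∈ K) ∧ ∀ b ∈ S, ∑ i, b i * u i = 0}).map L := ⟨_, h1, rfl⟩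
  rw [Submodule.map_span] at h2
  refine Submodule.span_mono ?_ h2
  rintro _ ⟨u, ⟨hu1, hu2⟩, rfl⟩
  refine ⟨fun m f hf => ?_, fun i j => hu1 (i, j)⟩
  rw [ann_co]
  intro I
  exact hu2 _ ⟨m, f, hf, I, rfl⟩

theorem K3Motive.G_span {x : Matrix ι ι ℂ} (hx : x ∈ T.G K) :
    x ∈ Submodule.span ℂ {y | y ∈ T.G K ∧ ∀ i j, y i j ∈ K} :=
  ann_span K (fun _ f => T.IsDRB K f) (fun _ _ h => h.1) hx

/-! ### Forms of degree two -/

/-- The bilinear form with matrix `M`. -/
def bil (M : Matrix ι ι ℂ) : Form ι (Fin 2) := bil2 (Matrix.toLinearMap₂' ℂ M)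

theorem bil_apply (M : Matrix ι ι ℂ) (v : Fin 2 → ι → ℂ) : bil M v = v 0 ⬝ᵥ (M *ᵥ v 1) := by
  unfold bil
  rw [bil2_apply, Matrix.toLinearMap₂'_apply']

theorem bil_ann (x M : Matrix ι ι ℂ) (v : Fin 2 → ι → ℂ) :
    ∑ k, bil M (Function.update v k (x *ᵥ v k)) =
      v 0 ⬝ᵥ ((x.transpose * M + M * x) *ᵥ v 1) := by
  have h0 : (0 : Fin 2) ≠ 1 := by decide
  rw [Fin.sum_univ_two]
  simp only [bil_apply]
  rw [Function.update_self, Function.update_of_ne h0.symm, Function.update_self,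
    Function.update_of_ne h0, Matrix.add_mulVec, dotProduct_add]
  congr 1
  · rw [← Matrix.mulVec_mulVec, Matrix.dotProduct_mulVec _ x.transpose, Matrix.vecMul_transpose]
  · rw [Matrix.mulVec_mulVec]

theorem ann_bil {x M : Matrix ι ι ℂ} : Annihilates x (bil M) ↔
    x.transpose * M + M * x = 0 := by
  constructor
  · intro h
    apply eq_zero_of_dot
    intro u w
    have h1 := h ![u, w]
    rw [bil_ann] at h1
    exact h1
  · intro h v
    rw [bil_ann, h, Matrix.zero_mulVec, dotProduct_zero]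

theorem bil_coeff (M : Matrix ι ι ℂ) (I : Fin 2 → ι) :
    bil M (fun l => Pi.single (I l) 1) = M (I 0) (I 1) := by
  rw [bil_apply, single_one_dotProduct, Matrix.mulVec_single_one]
  rfl

theorem bil_mulVec (M C : Matrix ι ι ℂ) (I : Fin 2 → ι) :
    bil M (fun l => C *ᵥ Pi.single (I l) 1) = (C.transpose * M * C) (I 0) (I 1) := by
  rw [bil_apply, ← Matrix.vecMul_transpose, ← Matrix.dotProduct_mulVec, single_one_dotProduct,
    Matrix.mulVec_mulVec, Matrix.mulVec_mulVec, Matrix.mulVec_single_one, Matrix.mul_assoc]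
  rfl

theorem bil_isAlt {M : Matrix ι ι ℂ} (hM : M.transpose = -M) : IsAlt (bil M) := by
  intro i j hij v
  have h1 : ∀ v : Fin 2 → ι → ℂ, v 1 ⬝ᵥ (M *ᵥ v 0) = -(v 0 ⬝ᵥ (M *ᵥ v 1)) := by
    intro v
    rw [Matrix.dotProduct_mulVec, ← Matrix.mulVec_transpose, hM, dotProduct_comm,
      Matrix.neg_mulVec, dotProduct_neg]
  rw [bil_apply, bil_apply]
  fin_cases i <;> fin_cases j
  · exact absurd rfl hij
  · exact h1 v
  · exact h1 v
  · exact absurd rfl hij

end

end Pool.Agent.W537.KT
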