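import Pool.Agent.W537.KT.DecL

/-!
# The alternating form of degree four defined by the Casimir element
-/

set_option linter.unusedSectionVars false

namespace Pool.Agent.W537.KT

open Pool.Agent.W537.DB Matrix Pool.Agent.H204R3.SP

noncomputable section

variable {ι : Type} [Fintype ι] [DecidableEq ι] {K : IntermediateField ℚ ℂ}
variable {g : Submodule ℂ (Matrix ι ι ℂ)} (Q : Matrix ι ι ℂ)

/-- The linear form `x ↦ u ⬝ᵥ (Q x w)`. -/
def lf (u w : ι → ℂ) : Matrix ι ι ℂ →ₗ[ℂ] ℂ where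
  toFun x := u ⬝ᵥ ((Q * x) *ᵥ w)
  map_add' x y := by
    rw [Matrix.mul_add, Matrix.add_mulVec, dotProduct_add]
  map_smul' c x := by
    rw [Matrix.mul_smul, Matrix.smul_mulVec, dotProduct_smul]
    rfl

theorem lf_apply (u w : ι → ℂ) (x : Matrix ι ι ℂ) : lf Q u w x = u ⬝ᵥ ((Q * x) *ᵥ w) := rfl

theorem dot_swap (M : Matrix ι ι ℂ) (u w : ι → ℂ) : u ⬝ᵥ (M *ᵥ w) = w ⬝ᵥ (M.transpose *ᵥ u) := by
  rw [Matrix.dotProduct_mulVec, ← Matrix.mulVec_transpose, dotProduct_comm]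

theorem lf_skew (hQ : Q.transpose = Q) {x : Matrix ι ι ℂ} (hx : x.transpose * Q = -(Q * x))
    (u w : ι → ℂ) : lf Q w u x = -lf Q u w x := by
  rw [lf_apply, lf_apply, dot_swap, Matrix.transpose_mul, hQ, hx, Matrix.neg_mulVec,
    dotProduct_neg]

/-- The Casimir form. -/
def casF (D : DualB K g) : Form ι (Fin 2 × Fin 2) :=
  letI := D.fin
  ∑ i, prodForm 1 ![Q * D.y i, Q * D.y' i]

/-- The value of the Casimir form. -/
def c4 (D : DualB K g) (u v w z : ι → ℂ) : ℂ :=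
  letI := D.fin
  ∑ i, lf Q u v (D.y i) * lf Q w z (D.y' i)

theorem casF_apply (D : DualB K g) (v : Fin 2 × Fin 2 → ι → ℂ) :
    casF Q D v = c4 Q D (v (0, 0)) (v (0, 1)) (v (1, 0)) (v (1, 1)) := by
  let _ := D.fin
  unfold casF c4
  rw [_root_.sum_apply]
  refine Finset.sum_congr rfl fun i _ => ?_
  rw [prodForm_apply, Fin.prod_univ_two]
  rfl

theorem casF_killed (D : DualB K g) (hg : ∀ x ∈ g, ∀ y ∈ g, x * y - y * x ∈ g)
    {z : Matrix ι ι ℂ} (hz : z ∈ g) (hz' : z.transpose * Q = -(Q * z)) :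
    Annihilates z (casF Q D) := by
  let _ := D.fin
  rw [ann_iff]
  refine MultilinearMap.ext fun v => ?_
  have h0 : killM (Matrix.toLin' z) (casF Q D) v =
      ∑ i, (lf Q (v (0, 0)) (v (0, 1)) (D.y i * z - z * D.y i) *
          lf Q (v (1, 0)) (v (1, 1)) (D.y' i) +
        lf Q (v (0, 0)) (v (0, 1)) (D.y i) *
          lf Q (v (1, 0)) (v (1, 1)) (D.y' i * z - z * D.y' i)) := by
    unfold casF
    rw [killM_form_sum, _root_.sum_apply]
    refine Finset.sum_congr rfl fun i _ => ?_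
    rw [killM_pf]
    have h1 : ∀ y : Matrix ι ι ℂ, z.transpose * (Q * y) + Q * y * z =
        Q * (y * z - z * y) := by
      intro y
      rw [← Matrix.mul_assoc, hz', Matrix.neg_mul, Matrix.mul_sub, Matrix.mul_assoc,
        Matrix.mul_assoc]
      abel
    rw [h1, h1]
    rfl
  rw [h0]
  exact casimir_inv D hg hz _ _

/-- The Casimir element is symmetric. -/
theorem casimir_symm (D : DualB K g) (a b : Matrix ι ι ℂ →ₗ[ℂ] ℂ) :
    letI := D.fin
    ∑ i, a (D.y i) * b (D.y' i) = ∑ i, b (D.y i) * a (D.y' i) := by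
  let _ := D.fin
  change ∑ i, a (D.y i) * b (D.y' i) = ∑ i, b (D.y i) * a (D.y' i)
  have h1 : ∀ (c : Matrix ι ι ℂ →ₗ[ℂ] ℂ) i, c (D.y i) = ∑ j, (D.y i * D.y j).trace * c (D.y' j) := by
    intro c i
    conv_lhs => rw [D.exp' _ (D.y_mem i)]
    rw [map_sum]
    exact Finset.sum_congr rfl fun j _ => by rw [map_smul, smul_eq_mul]
  simp only [h1 a, h1 b, Finset.sum_mul]
  rw [Finset.sum_comm]
  refine Finset.sum_congr rfl fun i _ => Finset.sum_congr rfl fun j _ => ?_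
  rw [Matrix.trace_mul_comm]
  ring

theorem c4_symm (D : DualB K g) (u v w z : ι → ℂ) : c4 Q D w z u v = c4 Q D u v w z :=
  casimir_symm D (lf Q w z) (lf Q u v)

variable (hQ : Q.transpose = Q) (hg : ∀ x ∈ g, x.transpose * Q = -(Q * x))
include hQ hg

theorem c4_left (D : DualB K g) (u v w z : ι → ℂ) : c4 Q D v u w z = -c4 Q D u v w z := by
  let _ := D.fin
  unfold c4
  rw [← Finset.sum_neg_distrib]
  refine Finset.sum_congr rfl fun i _ => ?_
  rw [lf_skew Q hQ (hg _ (D.y_mem i)), neg_mul]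

theorem c4_right (D : DualB K g) (u v w z : ι → ℂ) : c4 Q D u v z w = -c4 Q D u v w z := by
  rw [← c4_symm, c4_left Q hQ hg, c4_symm]

omit hQ hg

/-- The three ways to distribute the variables. -/
def e4 (a : Fin 3) : Fin 2 × Fin 2 ≃ Fin 4 :=
  finProdFinEquiv.trans (![1, Equiv.swap 1 2, (Equiv.swap 2 3).trans (Equiv.swap 1 3)] a)

theorem e4_apply : (e4 0 (0, 0) = 0 ∧ e4 0 (0, 1) = 1 ∧ e4 0 (1, 0) = 2 ∧ e4 0 (1, 1) = 3) ∧
    (e4 1 (0, 0) = 0 ∧ e4 1 (0, 1) = 2 ∧ e4 1 (1, 0) = 1 ∧ e4 1 (1, 1) = 3) ∧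
    (e4 2 (0, 0) = 0 ∧ e4 2 (0, 1) = 3 ∧ e4 2 (1, 0) = 1 ∧ e4 2 (1, 1) = 2) := by
  decide

/-- The alternating form. -/
def F4 (D : DualB K g) : Form ι (Fin 4) :=
  (casF Q D).domDomCongr (e4 0) - (casF Q D).domDomCongr (e4 1) + (casF Q D).domDomCongr (e4 2)

theorem F4_apply (D : DualB K g) (v : Fin 4 → ι → ℂ) :
    F4 Q D v = c4 Q D (v 0) (v 1) (v 2) (v 3) - c4 Q D (v 0) (v 2) (v 1) (v 3) +
      c4 Q D (v 0) (v 3) (v 1) (v 2) := by
  have h := e4_apply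
  change casF Q D (fun k => v (e4 0 k)) - casF Q D (fun k => v (e4 1 k)) +
    casF Q D (fun k => v (e4 2 k)) = _
  rw [casF_apply, casF_apply, casF_apply, h.1.1, h.1.2.1, h.1.2.2.1, h.1.2.2.2, h.2.1.1,
    h.2.1.2.1, h.2.1.2.2.1, h.2.1.2.2.2, h.2.2.1, h.2.2.2.1, h.2.2.2.2.1, h.2.2.2.2.2]

theorem ann_dom {κ κ' : Type} [Fintype κ] [DecidableEq κ] [Fintype κ'] [DecidableEq κ']
    (e : κ ≃ κ') {x : Matrix ι ι ℂ} {f : Form ι κ} (h : Annihilates x f) :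
    Annihilates x (f.domDomCongr e) := by
  intro v
  have h1 := h (fun k => v (e k))
  rw [← h1, ← Equiv.sum_comp e]
  refine Finset.sum_congr rfl fun k _ => ?_
  rw [MultilinearMap.domDomCongr_apply]
  congr 1
  funext l
  by_cases hl : l = k
  · subst hl
    rw [Function.update_self, Function.update_self]
  · rw [Function.update_of_ne hl, Function.update_of_ne (fun h => hl (e.injective h))]

theorem ann_form_sub {κ : Type} [Fintype κ] [DecidableEq κ] {x : Matrix ι ι ℂ} {f f' : Form ι κ}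
    (h : Annihilates x f) (h' : Annihilates x f') : Annihilates x (f - f') := by
  intro v
  have h1 := h v
  have h2 := h' v
  simp only [_root_.sub_apply, Finset.sum_sub_distrib]
  rw [h1, h2, sub_zero]

theorem ann_form_add {κ : Type} [Fintype κ] [DecidableEq κ] {x : Matrix ι ι ℂ} {f f' : Form ι κ}
    (h : Annihilates x f) (h' : Annihilates x f') : Annihilates x (f + f') := by
  intro v
  have h1 := h v
  have h2 := h' v
  simp only [_root_.add_apply, Finset.sum_add_distrib]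
  rw [h1, h2, add_zero]

include hg in
theorem F4_killed (D : DualB K g) (hl : ∀ x ∈ g, ∀ y ∈ g, x * y - y * x ∈ g)
    {z : Matrix ι ι ℂ} (hz : z ∈ g) : Annihilates z (F4 Q D) := by
  have h1 := casF_killed Q D hl hz (hg z hz)
  exact ann_form_add (ann_form_sub (ann_dom _ h1) (ann_dom _ h1)) (ann_dom _ h1)

include hQ hg in
theorem F4_isAlt (D : DualB K g) : IsAlt (F4 Q D) := by
  intro i j hij v
  rw [F4_apply, F4_apply]
  have hs := c4_symm Q D
  have hl := c4_left Q hQ hg D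
  have hr := c4_right Q hQ hg D
  have h01 : c4 Q D (v 1) (v 0) (v 2) (v 3) - c4 Q D (v 1) (v 2) (v 0) (v 3) +
      c4 Q D (v 1) (v 3) (v 0) (v 2) = -(c4 Q D (v 0) (v 1) (v 2) (v 3) -
        c4 Q D (v 0) (v 2) (v 1) (v 3) + c4 Q D (v 0) (v 3) (v 1) (v 2)) := by
    rw [hl (v 0) (v 1), hs (v 0) (v 3) (v 1) (v 2), hs (v 0) (v 2) (v 1) (v 3)]
    ring
  have h02 : c4 Q D (v 2) (v 1) (v 0) (v 3) - c4 Q D (v 2) (v 0) (v 1) (v 3) +
      c4 Q D (v 2) (v 3) (v 1) (v 0) = -(c4 Q D (v 0) (v 1) (v 2) (v 3) -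
        c4 Q D (v 0) (v 2) (v 1) (v 3) + c4 Q D (v 0) (v 3) (v 1) (v 2)) := by
    rw [hl (v 1) (v 2), hs (v 0) (v 3) (v 1) (v 2), hl (v 0) (v 2), hr (v 2) (v 3) (v 0) (v 1),
      hs (v 0) (v 1) (v 2) (v 3)]
    ring
  have h03 : c4 Q D (v 3) (v 1) (v 2) (v 0) - c4 Q D (v 3) (v 2) (v 1) (v 0) +
      c4 Q D (v 3) (v 0) (v 1) (v 2) = -(c4 Q D (v 0) (v 1) (v 2) (v 3) -
        c4 Q D (v 0) (v 2) (v 1) (v 3) + c4 Q D (v 0) (v 3) (v 1) (v 2)) := by
    rw [hl (v 1) (v 3), hr (v 1) (v 3) (v 0) (v 2), hs (v 0) (v 2) (v 1) (v 3), hl (v 2) (v 3),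
      hr (v 2) (v 3) (v 0) (v 1), hs (v 0) (v 1) (v 2) (v 3), hl (v 0) (v 3)]
    ring
  have h12 : c4 Q D (v 0) (v 2) (v 1) (v 3) - c4 Q D (v 0) (v 1) (v 2) (v 3) +
      c4 Q D (v 0) (v 3) (v 2) (v 1) = -(c4 Q D (v 0) (v 1) (v 2) (v 3) -
        c4 Q D (v 0) (v 2) (v 1) (v 3) + c4 Q D (v 0) (v 3) (v 1) (v 2)) := by
    rw [hr (v 0) (v 3) (v 1) (v 2)]
    ring
  have h13 : c4 Q D (v 0) (v 3) (v 2) (v 1) - c4 Q D (v 0) (v 2) (v 3) (v 1) +
      c4 Q D (v 0) (v 1) (v 3) (v 2) = -(c4 Q D (v 0) (v 1) (v 2) (v 3) -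
        c4 Q D (v 0) (v 2) (v 1) (v 3) + c4 Q D (v 0) (v 3) (v 1) (v 2)) := by
    rw [hr (v 0) (v 3) (v 1) (v 2), hr (v 0) (v 2) (v 1) (v 3), hr (v 0) (v 1) (v 2) (v 3)]
    ring
  have h23 : c4 Q D (v 0) (v 1) (v 3) (v 2) - c4 Q D (v 0) (v 3) (v 1) (v 2) +
      c4 Q D (v 0) (v 2) (v 1) (v 3) = -(c4 Q D (v 0) (v 1) (v 2) (v 3) -
        c4 Q D (v 0) (v 2) (v 1) (v 3) + c4 Q D (v 0) (v 3) (v 1) (v 2)) := by
    rw [hr (v 0) (v 1) (v 2) (v 3)]
    ring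
  fin_cases i <;> fin_cases j
  · exact absurd rfl hij
  · exact h01
  · exact h02
  · exact h03
  · exact h01
  · exact absurd rfl hij
  · exact h12
  · exact h13
  · exact h02
  · exact h12
  · exact absurd rfl hij
  · exact h23
  · exact h03
  · exact h13
  · exact h23
  · exact absurd rfl hij

end

end Pool.Agent.W537.KT
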