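import Pool.Agent.W537.KT.Basic

/-!
# The components of a matrix which commutes with the endomorphisms
-/

set_option linter.unusedSectionVars false

namespace Pool.Agent.W537.KT

open Pool.Agent.W537.DB Matrix Pool.Agent.H204R3.SP

noncomputable section

variable {ι : Type} [Fintype ι] [DecidableEq ι] {Q P : Matrix ι ι ℂ} {m : ℕ} (d : Dec Q P m)

attribute [instance] Dec.fin Dec.dec

namespace Dec

/-- The component of `x`. -/
def comp (x : Matrix ι ι ℂ) (s : d.R) : Matrix (Fin m) (Fin m) ℂ :=
  (d.B s).transpose * Q * x * d.B s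

/-- The matrix with one component `z`. -/
def phi (s : d.R) (z : Matrix (Fin m) (Fin m) ℂ) : Matrix ι ι ℂ :=
  d.B s * z * ((d.B s).transpose * Q)

theorem comp_add (x y : Matrix ι ι ℂ) (s : d.R) : d.comp (x + y) s = d.comp x s + d.comp y s := by
  unfold comp
  rw [Matrix.mul_add, Matrix.add_mul]

theorem comp_smul (c : ℂ) (x : Matrix ι ι ℂ) (s : d.R) : d.comp (c • x) s = c • d.comp x s := by
  unfold comp
  rw [Matrix.mul_smul, Matrix.smul_mul]

/-- The component as a linear map. -/
def compL (s : d.R) : Matrix ι ι ℂ →ₗ[ℂ] Matrix (Fin m) (Fin m) ℂ where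
  toFun x := d.comp x s
  map_add' x y := d.comp_add x y s
  map_smul' c x := d.comp_smul c x s

theorem comp_sum {t : Type} [Fintype t] (c : t → ℂ) (y : t → Matrix ι ι ℂ) (s : d.R) :
    d.comp (∑ i, c i • y i) s = ∑ i, c i • d.comp (y i) s := by
  change d.compL s (∑ i, c i • y i) = _
  rw [map_sum]
  exact Finset.sum_congr rfl fun i _ => map_smul _ _ _

theorem phi_add (s : d.R) (z w : Matrix (Fin m) (Fin m) ℂ) :
    d.phi s (z + w) = d.phi s z + d.phi s w := by
  unfold phi
  rw [Matrix.mul_add, Matrix.add_mul]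

theorem phi_sub (s : d.R) (z w : Matrix (Fin m) (Fin m) ℂ) :
    d.phi s (z - w) = d.phi s z - d.phi s w := by
  unfold phi
  rw [Matrix.mul_sub, Matrix.sub_mul]

theorem phi_smul (s : d.R) (c : ℂ) (z : Matrix (Fin m) (Fin m) ℂ) :
    d.phi s (c • z) = c • d.phi s z := by
  unfold phi
  rw [Matrix.mul_smul, Matrix.smul_mul]

theorem phi_zero (s : d.R) : d.phi s 0 = 0 := by
  unfold phi
  rw [Matrix.mul_zero, Matrix.zero_mul]

theorem orthQ (s : d.R) : (d.B s).transpose * Q * d.B s = 1 := d.orth s

theorem phi_mul (s : d.R) (z w : Matrix (Fin m) (Fin m) ℂ) :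
    d.phi s z * d.phi s w = d.phi s (z * w) := by
  unfold phi
  have h1 : d.B s * z * ((d.B s).transpose * Q) * (d.B s * w * ((d.B s).transpose * Q)) =
      d.B s * z * ((d.B s).transpose * Q * d.B s) * w * ((d.B s).transpose * Q) := by
    simp only [Matrix.mul_assoc]
  rw [h1, d.orth, Matrix.mul_one]
  simp only [Matrix.mul_assoc]

theorem comp_phi (s : d.R) (z : Matrix (Fin m) (Fin m) ℂ) : d.comp (d.phi s z) s = z := by
  unfold comp phi
  have h1 : (d.B s).transpose * Q * (d.B s * z * ((d.B s).transpose * Q)) * d.B s =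
      ((d.B s).transpose * Q * d.B s) * z * ((d.B s).transpose * Q * d.B s) := by
    simp only [Matrix.mul_assoc]
  rw [h1, d.orth, Matrix.mul_one, Matrix.one_mul]

theorem trace_phi (s : d.R) (z : Matrix (Fin m) (Fin m) ℂ) (y : Matrix ι ι ℂ) :
    (d.phi s z * y).trace = (z * d.comp y s).trace := by
  unfold comp phi
  rw [Matrix.mul_assoc, Matrix.mul_assoc, Matrix.trace_mul_comm]
  simp only [Matrix.mul_assoc]

theorem comp_skew (hQ : Q.transpose = Q) {x : Matrix ι ι ℂ} (hx : x.transpose * Q = -(Q * x))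
    (s : d.R) : (d.comp x s).transpose = -d.comp x s := by
  unfold comp
  have h1 : ((d.B s).transpose * Q * x * d.B s).transpose =
      (d.B s).transpose * (x.transpose * Q) * d.B s := by
    simp only [Matrix.transpose_mul, Matrix.transpose_transpose, hQ, Matrix.mul_assoc]
  rw [h1, hx, Matrix.mul_neg, Matrix.neg_mul]
  simp only [Matrix.mul_assoc]

theorem phi_skew (hQ : Q.transpose = Q) {z : Matrix (Fin m) (Fin m) ℂ} (hz : z.transpose = -z)
    (s : d.R) : (d.phi s z).transpose * Q = -(Q * d.phi s z) := by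
  unfold phi
  simp only [Matrix.transpose_mul, Matrix.transpose_transpose, hQ, hz, Matrix.mul_neg,
    Matrix.neg_mul, Matrix.mul_assoc]

section comm

variable (hPQ : P.transpose * Q = Q * P)
include hPQ

theorem BQ_P (t : d.R) : (d.B t).transpose * Q * P = d.c t • ((d.B t).transpose * Q) := by
  have h1 := congrArg Matrix.transpose (d.eig t)
  rw [Matrix.transpose_mul, Matrix.transpose_smul] at h1
  rw [Matrix.mul_assoc, ← hPQ, ← Matrix.mul_assoc, h1, Matrix.smul_mul]

theorem off {x : Matrix ι ι ℂ} (hx : P * x = x * P) {s t : d.R} (h : s ≠ t) :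
    (d.B t).transpose * Q * x * d.B s = 0 := by
  have h1 : d.c t • ((d.B t).transpose * Q * x * d.B s) =
      d.c s • ((d.B t).transpose * Q * x * d.B s) := by
    have h2 : d.c t • ((d.B t).transpose * Q * x * d.B s) =
        (d.B t).transpose * Q * P * x * d.B s := by
      rw [d.BQ_P hPQ, Matrix.smul_mul, Matrix.smul_mul]
    have h3 : (d.B t).transpose * Q * P * x * d.B s =
        (d.B t).transpose * Q * x * (P * d.B s) := by
      rw [Matrix.mul_assoc _ P x, hx]
      simp only [Matrix.mul_assoc]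
    rw [h2, h3, d.eig, Matrix.mul_smul]
  have h2 : (d.c t - d.c s) • ((d.B t).transpose * Q * x * d.B s) = 0 := by
    rw [sub_smul, h1, sub_self]
  rcases smul_eq_zero.1 h2 with h3 | h3
  · exact absurd (d.c_inj (sub_eq_zero.1 h3).symm) h
  · exact h3

theorem mul_B {x : Matrix ι ι ℂ} (hx : P * x = x * P) (s : d.R) :
    x * d.B s = d.B s * d.comp x s := by
  have h1 : x * d.B s = (∑ t, d.B t * ((d.B t).transpose * Q)) * (x * d.B s) := by
    rw [d.compl, Matrix.one_mul]
  rw [h1, Matrix.sum_mul, Finset.sum_eq_single s]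
  · unfold comp
    simp only [Matrix.mul_assoc]
  · intro t _ hts
    have h2 : d.B t * ((d.B t).transpose * Q) * (x * d.B s) =
        d.B t * ((d.B t).transpose * Q * x * d.B s) := by
      simp only [Matrix.mul_assoc]
    rw [h2, d.off hPQ hx (Ne.symm hts), Matrix.mul_zero]
  · intro h
    exact absurd (Finset.mem_univ _) h

theorem BQ_mul {x : Matrix ι ι ℂ} (hx : P * x = x * P) (s : d.R) :
    (d.B s).transpose * Q * x = d.comp x s * ((d.B s).transpose * Q) := by
  have h1 : (d.B s).transpose * Q * x =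
      (d.B s).transpose * Q * x * ∑ t, d.B t * ((d.B t).transpose * Q) := by
    rw [d.compl, Matrix.mul_one]
  rw [h1, Matrix.mul_sum, Finset.sum_eq_single s]
  · unfold comp
    simp only [Matrix.mul_assoc]
  · intro t _ hts
    have h2 : (d.B s).transpose * Q * x * (d.B t * ((d.B t).transpose * Q)) =
        ((d.B s).transpose * Q * x * d.B t) * ((d.B t).transpose * Q) := by
      simp only [Matrix.mul_assoc]
    rw [h2, d.off hPQ hx hts, Matrix.zero_mul]
  · intro h
    exact absurd (Finset.mem_univ _) h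

theorem eq_sum {x : Matrix ι ι ℂ} (hx : P * x = x * P) : x = ∑ s, d.phi s (d.comp x s) := by
  have h1 : x = x * ∑ t, d.B t * ((d.B t).transpose * Q) := by
    rw [d.compl, Matrix.mul_one]
  conv_lhs => rw [h1, Finset.mul_sum]
  refine Finset.sum_congr rfl fun s _ => ?_
  rw [← Matrix.mul_assoc, d.mul_B hPQ hx]
  rfl

theorem phi_comm (s : d.R) (z : Matrix (Fin m) (Fin m) ℂ) :
    P * d.phi s z = d.phi s z * P := by
  unfold phi
  have h1 : P * (d.B s * z * ((d.B s).transpose * Q)) =
      (P * d.B s) * z * ((d.B s).transpose * Q) := by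
    simp only [Matrix.mul_assoc]
  have h2 : d.B s * z * ((d.B s).transpose * Q) * P =
      d.B s * z * ((d.B s).transpose * Q * P) := by
    simp only [Matrix.mul_assoc]
  rw [h1, h2, d.eig, d.BQ_P hPQ, Matrix.smul_mul, Matrix.smul_mul, Matrix.mul_smul]

theorem trace_mul {x y : Matrix ι ι ℂ} (hx : P * x = x * P) :
    (x * y).trace = ∑ s, (d.comp x s * d.comp y s).trace := by
  conv_lhs => rw [d.eq_sum hPQ hx, Finset.sum_mul, Matrix.trace_sum]
  exact Finset.sum_congr rfl fun s _ => d.trace_phi s _ _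

theorem comp_phi_ne {s t : d.R} (h : s ≠ t) (z : Matrix (Fin m) (Fin m) ℂ) :
    d.comp (d.phi s z) t = 0 := by
  unfold comp phi
  have h1 : (d.B t).transpose * Q * (d.B s * z * ((d.B s).transpose * Q)) * d.B t =
      ((d.B t).transpose * Q * d.B s) * z * ((d.B s).transpose * Q * d.B t) := by
    simp only [Matrix.mul_assoc]
  rw [h1, d.orth' s t h, Matrix.mul_zero]

end comm

end Dec

variable (T : K3Motive ι)

/-- A matrix which is skew and commutes with the generator commutes with all Hodge
endomorphisms. -/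
theorem K3Motive.mem_hd {P : Matrix ι ι ℚ} (hP : T.RealMultiplication P) {x : Matrix ι ι ℂ}
    (hx : x.transpose * T.QC = -(T.QC * x)) (hc : toC P * x = x * toC P) : x ∈ T.hd := by
  refine ⟨hx, fun R hR => ?_⟩
  have h1 := hP.2.1 R hR
  clear hR
  induction h1 using Algebra.adjoin_induction with
  | mem y hy =>
    rw [Set.mem_singleton_iff] at hy
    rw [hy]
    exact hc
  | algebraMap r =>
    have h2 : toC (algebraMap ℚ (Matrix ι ι ℚ) r) = (r : ℂ) • 1 := by
      rw [Algebra.algebraMap_eq_smul_one]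
      ext i j
      simp only [Matrix.map_apply, Matrix.smul_apply, smul_eq_mul, Rat.cast_mul, Matrix.one_apply]
      split_ifs
      · rw [Rat.cast_one]
      · rw [Rat.cast_zero]
    rw [h2, Matrix.smul_mul, Matrix.mul_smul, Matrix.one_mul, Matrix.mul_one]
  | add y z _ _ hy hz =>
    have h2 : toC (y + z) = toC y + toC z := by
      ext i j
      simp
    rw [h2, Matrix.add_mul, Matrix.mul_add, hy, hz]
  | mul y z _ _ hy hz =>
    rw [toC_mul, Matrix.mul_assoc, hz, ← Matrix.mul_assoc, hy, Matrix.mul_assoc]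

theorem K3Motive.RealMultiplication.toC {T : K3Motive ι} {P : Matrix ι ι ℚ}
    (hP : T.RealMultiplication P) : (toC P).transpose * T.QC = T.QC * toC P := by
  have h1 := congrArg DB.toC hP.2.2.2
  rw [toC_mul, toC_mul] at h1
  exact h1

theorem K3Motive.phi_mem {P : Matrix ι ι ℚ} (hP : T.RealMultiplication P)
    (d : Dec T.QC (toC P) m) (s : d.R) {z : Matrix (Fin m) (Fin m) ℂ} (hz : z.transpose = -z) :
    d.phi s z ∈ T.hd :=
  T.mem_hd hP (d.phi_skew T.QC_T hz s) (d.phi_comm hP.toC s z)

end

end Pool.Agent.W537.KT
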