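import Pool.Agent.W537.DB.Defs

/-!
# De Rham-Betti classes on the tensor powers of a motive of K3 type

A motive `T` of K3 type and weight zero over the field of algebraic numbers (for example the
transcendental part of `H^2(X)(1)` for a K3 surface or a hyper-Kaehler variety `X`) is given by

* the rational quadratic space `ℚ ^ ι` with the Gram matrix `Q` (the dual of the Betti
  realization, with the intersection form);
* the Hodge structure, given by the generator `N` of the action of the circle: on the
  complexification the eigenvalues of `N` are `i`, `0` and `-i`, on the parts of type `(1, -1)`,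
  `(0, 0)` and `(-1, 1)`;
* the period matrix `C`, whose rows are the periods of the elements of a basis of the de Rham
  realization of `T` on the basis of `ℚ ^ ι`.

A complex class in `T ^ {⊗ m}` is a complex multilinear form `f` in `m` variables on `ℂ ^ ι`.
-/

namespace Pool.Agent.W537.KT

open Pool.Agent.W537.DB Matrix

noncomputable section

/-- A motive of K3 type and weight zero: quadratic form `Q`, Hodge structure `N` and period
matrix `C`. -/
structure K3Motive (ι : Type) [Fintype ι] [DecidableEq ι] where
  /-- the intersection form -/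
  Q : Matrix ι ι ℚ
  Q_symm : Q.transpose = Q
  Q_det : Q.det ≠ 0
  /-- the generator of the action of the circle -/
  N : Matrix ι ι ℝ
  N_cube : N * N * N = -N
  N_rank : N.rank = 2
  N_skew : N.transpose * Q.map (fun q : ℚ => (q : ℝ)) = -(Q.map (fun q : ℚ => (q : ℝ)) * N)
  /-- the period matrix: `C i j` is the period of the `i`-th element of a basis of the de Rham
  realization along the `j`-th element of the basis of `ℚ ^ ι` -/
  C : Matrix ι ι ℂ
  C_unit : IsUnit C

variable {ι : Type} [Fintype ι] [DecidableEq ι] (T : K3Motive ι)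

/-- The matrix `x` acts as zero on the form `f`. -/
def Annihilates {κ : Type} [Fintype κ] [DecidableEq κ] (x : Matrix ι ι ℂ) (f : Form ι κ) : Prop :=
  ∀ v : κ → ι → ℂ, ∑ k, f (Function.update v k (x *ᵥ v k)) = 0

/-- Antisymmetric forms, that is the classes in the exterior powers. -/
def IsAlt {m : ℕ} (f : Form ι (Fin m)) : Prop :=
  ∀ i j : Fin m, i ≠ j → ∀ v : Fin m → ι → ℂ, f (fun k => v (Equiv.swap i j k)) = -f v

/-- The de Rham coefficients of the form `f` are algebraic numbers. -/
def K3Motive.IsDeRham {m : ℕ} (f : Form ι (Fin m)) : Prop :=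
  ∀ I : Fin m → ι, IsAlgebraic ℚ (f (fun l => T.C⁻¹ *ᵥ Pi.single (I l) 1))

/-- A de Rham-Betti class with coefficients in `K`. -/
def K3Motive.IsDRB (K : IntermediateField ℚ ℂ) {m : ℕ} (f : Form ι (Fin m)) : Prop :=
  HasCoeff K f ∧ T.IsDeRham f

/-- A Hodge class: a form with rational coefficients of type `(0, 0)`. -/
def K3Motive.IsHodge {m : ℕ} (f : Form ι (Fin m)) : Prop :=
  HasCoeff ⊥ f ∧ Annihilates (T.N.map (fun x : ℝ => (x : ℂ))) f

/-- The rational matrix `P` is an endomorphism of the Hodge structure. -/
def K3Motive.IsHodgeEnd (P : Matrix ι ι ℚ) : Prop :=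
  P.map (fun q : ℚ => (q : ℝ)) * T.N = T.N * P.map (fun q : ℚ => (q : ℝ))

/-- The algebra `E` of the endomorphisms of the Hodge structure is a totally real field, with
generator `P`. -/
def K3Motive.RealMultiplication (P : Matrix ι ι ℚ) : Prop :=
  T.IsHodgeEnd P ∧ (∀ R, T.IsHodgeEnd R → R ∈ Algebra.adjoin ℚ {P}) ∧
    Irreducible (minpoly ℚ P) ∧ P.transpose * T.Q = T.Q * P

/-- The theorem of Zarhin: the Lie algebra of the Hodge group of `T` consists of all maps which are
skew for `Q` and commute with the endomorphisms of the Hodge structure. -/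
def K3Motive.Zarhin : Prop :=
  ∀ x : Matrix ι ι ℂ, x.transpose * T.Q.map (fun q : ℚ => (q : ℂ)) =
      -(T.Q.map (fun q : ℚ => (q : ℂ)) * x) →
    (∀ P, T.IsHodgeEnd P →
      P.map (fun q : ℚ => (q : ℂ)) * x = x * P.map (fun q : ℚ => (q : ℂ))) →
    ∀ (m : ℕ) (f : Form ι (Fin m)), T.IsHodge f → Annihilates x f

/-- Hodge classes are de Rham classes (Deligne, André). -/
def K3Motive.HodgeDeRham : Prop :=
  ∀ (m : ℕ) (f : Form ι (Fin m)), T.IsHodge f → T.IsDeRham f

/-- De Rham-Betti classes in the exterior powers of `T`, that is in the Clifford algebra, are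
combinations of Hodge classes (Kuga-Satake construction of Deligne and André, with the theorem of
Wüstholz on the endomorphisms of the first cohomology of abelian varieties). -/
def K3Motive.KugaSatake (K : IntermediateField ℚ ℂ) : Prop :=
  ∀ (m : ℕ) (f : Form ι (Fin m)), IsAlt f → T.IsDRB K f →
    f ∈ Submodule.span K {g : Form ι (Fin m) | T.IsHodge g}

/-- The subspace `U` underlies a subobject of the de Rham-Betti realization of `T`, with Betti
coefficients extended to `K`. -/
def K3Motive.IsSubobject (K : IntermediateField ℚ ℂ) (U : Submodule ℂ (ι → ℂ)) : Prop :=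
  U ≤ Submodule.span ℂ {u | u ∈ U ∧ ∀ i, u i ∈ K} ∧
    U ≤ Submodule.span ℂ {u | u ∈ U ∧ ∀ i, IsAlgebraic ℚ ((T.C *ᵥ u) i)}

/-- The de Rham-Betti realization of `T` is semisimple: every subobject is the image of an
idempotent endomorphism. -/
def K3Motive.Semisimple (K : IntermediateField ℚ ℂ) : Prop :=
  ∀ U : Submodule ℂ (ι → ℂ), T.IsSubobject K U →
    ∃ p : Matrix ι ι ℂ, (∀ i j, p i j ∈ K) ∧ (∀ i j, IsAlgebraic ℚ ((T.C * p * T.C⁻¹) i j)) ∧
      (∀ u ∈ U, p *ᵥ u = u) ∧ ∀ v, p *ᵥ v ∈ U

end

/-- The following property of the number `m`: a Lie algebra of skew-symmetric complex matrices of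
size `m` on which the trace form is nondegenerate and which annihilates no nonzero alternating
form of degree `j` for `0 < j < m` contains all skew-symmetric matrices. -/
def SphereProperty (m : ℕ) : Prop :=
  ∀ g : Submodule ℂ (Matrix (Fin m) (Fin m) ℂ), (∀ x ∈ g, x.transpose = -x) →
    (∀ x ∈ g, ∀ y ∈ g, x * y - y * x ∈ g) →
    (∀ x ∈ g, (∀ y ∈ g, (x * y).trace = 0) → x = 0) →
    (∀ j : ℕ, 0 < j → j < m → ∀ f : Form (Fin m) (Fin j), IsAlt f →
      (∀ x ∈ g, Annihilates x f) → f = 0) →
    ∀ x : Matrix (Fin m) (Fin m) ℂ, x.transpose = -x → x ∈ g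

end Pool.Agent.W537.KT
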