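import Pool.Agent.W537.KT.Main

/-!
# De Rham-Betti classes on the tensor powers of a motive of K3 type
-/

set_option linter.unusedSectionVars false

namespace Pool.Agent.W537.KT

open Pool.Agent.W537.DB Matrix Pool.Agent.H204R3.SP

noncomputable section

variable {ι : Type} [Fintype ι] [DecidableEq ι] {K : IntermediateField ℚ ℂ}
variable {T : K3Motive ι} {P : Matrix ι ι ℚ} {m : ℕ}

theorem zero_of_neg {x : Matrix ι ι ℂ} (h : x = -x) : x = 0 := by
  ext i j
  have h1 := congrFun (congrFun h i) j
  rw [Matrix.neg_apply] at h1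
  rw [Matrix.zero_apply]
  exact self_eq_neg.1 h1

theorem mem_hd_of_hodge {y : Matrix ι ι ℂ}
    (h : ∀ (n : ℕ) (f : Form ι (Fin n)), T.IsHodge f → Annihilates y f) : y ∈ T.hd := by
  have h1 := ann_bil.1 (h 2 _ (T.isHodge_bil T.one_hodgeEnd))
  rw [toC_one, Matrix.mul_one] at h1
  have h2 := eq_neg_of_add_eq_zero_left h1
  exact ⟨h2, fun R hR => T.comm_of_ann h2 (h 2 _ (T.isHodge_bil hR))⟩

/-- The Lie algebra of the Hodge group is defined over the rational numbers. -/
theorem hd_span (hZ : T.Zarhin) {x : Matrix ι ι ℂ} (hx : x ∈ T.hd) :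
    x ∈ Submodule.span ℂ {y | ∃ R : Matrix ι ι ℚ, y = toC R ∧ y ∈ T.hd} := by
  have h1 := ann_span ⊥ (fun n (f : Form ι (Fin n)) => T.IsHodge f) (fun _ _ h => h.1)
    (x := x) (fun n f hf => hZ x hx.1 hx.2 n f hf)
  refine Submodule.span_mono ?_ h1
  rintro y ⟨hy1, hy2⟩
  obtain ⟨R, hR⟩ := exists_toC hy2
  exact ⟨R, hR, mem_hd_of_hodge hy1⟩

/-- A form with coefficients in `K` annihilated by the Lie algebra of the Hodge group is a
combination of Hodge classes. -/
theorem hodge_of_ann (hZ : T.Zarhin) {n : ℕ} {f : Form ι (Fin n)} (hf : HasCoeff K f)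
    (hk : ∀ x ∈ T.hd, Annihilates x f) :
    f ∈ Submodule.span K {g : Form ι (Fin n) | T.IsHodge g} := by
  apply form_descend K _ (fun g hg => coeff_mono hg.1) hf
  let S : Set ((Fin n → ι) → ℂ) :=
    {b | ∃ R : Matrix ι ι ℚ, toC R ∈ T.hd ∧ ∃ I, b = killEq (toC R) I}
  have hS : ∀ b ∈ S, ∀ i, b i ∈ (⊥ : IntermediateField ℚ ℂ) := by
    rintro _ ⟨R, _, I, rfl⟩ I'
    exact killEq_rat R I I'
  have hw : ∀ b ∈ S, ∑ i, b i * coeff f i = 0 := by
    rintro _ ⟨R, hR, I, rfl⟩
    exact (ann_coeff _ f).1 (hk _ hR) I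
  have h1 := rational_span ⊥ S hS hw
  let L : ((Fin n → ι) → ℂ) →ₗ[ℂ] Form ι (Fin n) :=
    { toFun := ofCoeff
      map_add' := by
        intro u v
        refine MultilinearMap.ext fun w => ?_
        rw [_root_.add_apply, ofCoeff_apply, ofCoeff_apply, ofCoeff_apply,
          ← Finset.sum_add_distrib]
        exact Finset.sum_congr rfl fun I _ => add_mul _ _ _
      map_smul' := by
        intro c u
        refine MultilinearMap.ext fun w => ?_
        rw [RingHom.id_apply, _root_.smul_apply, ofCoeff_apply, ofCoeff_apply, Finset.smul_sum]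
        refine Finset.sum_congr rfl fun I _ => ?_
        rw [Pi.smul_apply, smul_mul_assoc] }
  have h2 : L (coeff f) ∈ (Submodule.span ℂ
      {u : (Fin n → ι) → ℂ | (∀ i, u i ∈ (⊥ : IntermediateField ℚ ℂ)) ∧
        ∀ b ∈ S, ∑ i, b i * u i = 0}).map L := ⟨_, h1, rfl⟩
  rw [Submodule.map_span] at h2
  have h3 : L (coeff f) = f := ofCoeff_coeff f
  rw [h3] at h2
  refine Submodule.span_mono ?_ h2
  rintro _ ⟨u, ⟨hu1, hu2⟩, rfl⟩
  have hc : ∀ I, L u (fun l => Pi.single (I l) 1) = u I := fun I => ofCoeff_single u I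
  refine ⟨fun I => ?_, ?_⟩
  · rw [hc]
    exact hu1 I
  · refine ann_of_span (x := T.NC) ?_ (hd_span hZ T.NC_mem)
    rintro y ⟨R, rfl, hR⟩
    rw [ann_coeff]
    intro I
    have h4 : coeff (L u) = u := coeff_ofCoeff u
    rw [h4]
    exact hu2 _ ⟨R, hR, I, rfl⟩

/-- The dimension of `T` over the field `E` is at least three. -/
theorem three_le (hZ : T.Zarhin) (hP : T.RealMultiplication P) (d : Dec T.QC (toC P) m) :
    3 ≤ m := by
  by_contra hm
  have hcom : ∀ x y : Matrix (Fin m) (Fin m) ℂ, x.transpose = -x → y.transpose = -y →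
      x * y = y * x := by
    intro x y hx hy
    have h1 : ∀ i j, x j i = -x i j := fun i j => congrFun (congrFun hx i) j
    have h2 : ∀ i j, y j i = -y i j := fun i j => congrFun (congrFun hy i) j
    have hx0 : ∀ i, x i i = 0 := fun i => self_eq_neg.1 (h1 i i)
    have hy0 : ∀ i, y i i = 0 := fun i => self_eq_neg.1 (h2 i i)
    have hm' : m = 0 ∨ m = 1 ∨ m = 2 := by omega
    rcases hm' with rfl | rfl | rfl
    · ext i
      exact i.elim0
    · ext i j
      rw [Matrix.mul_apply, Matrix.mul_apply, Fin.sum_univ_one, Fin.sum_univ_one]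
      ring_nf
      fin_cases i
      fin_cases j
      exact mul_comm _ _
    · ext i j
      rw [Matrix.mul_apply, Matrix.mul_apply, Fin.sum_univ_two, Fin.sum_univ_two]
      fin_cases i <;> fin_cases j
      · change x 0 0 * y 0 0 + x 0 1 * y 1 0 = y 0 0 * x 0 0 + y 0 1 * x 1 0
        rw [h1 0 1, h2 0 1]
        ring
      · change x 0 0 * y 0 1 + x 0 1 * y 1 1 = y 0 0 * x 0 1 + y 0 1 * x 1 1
        rw [hx0, hx0, hy0, hy0]
        ring
      · change x 1 0 * y 0 0 + x 1 1 * y 1 0 = y 1 0 * x 0 0 + y 1 1 * x 1 0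
        rw [hx0, hx0, hy0, hy0]
        ring
      · change x 1 0 * y 0 1 + x 1 1 * y 1 1 = y 1 0 * x 0 1 + y 1 1 * x 1 1
        rw [h1 0 1, h2 0 1]
        ring
  -- `hd` is abelian
  have hab : ∀ x ∈ T.hd, ∀ y ∈ T.hd, x * y = y * x := by
    intro x hx y hy
    have hxs := d.eq_sum hP.toC (hd_comm hP hx)
    have hB : ∀ s, x * y * d.B s = y * x * d.B s := by
      intro s
      rw [Matrix.mul_assoc, d.mul_B hP.toC (hd_comm hP hy), ← Matrix.mul_assoc,
        d.mul_B hP.toC (hd_comm hP hx), Matrix.mul_assoc,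
        hcom _ _ (d.comp_skew T.QC_T hx.1 s) (d.comp_skew T.QC_T hy.1 s), ← Matrix.mul_assoc,
        ← d.mul_B hP.toC (hd_comm hP hy), Matrix.mul_assoc, ← d.mul_B hP.toC (hd_comm hP hx),
        ← Matrix.mul_assoc]
    have h1 : x * y * ∑ s, d.B s * ((d.B s).transpose * T.QC) =
        y * x * ∑ s, d.B s * ((d.B s).transpose * T.QC) := by
      rw [Matrix.mul_sum, Matrix.mul_sum]
      refine Finset.sum_congr rfl fun s _ => ?_
      rw [← Matrix.mul_assoc, hB, Matrix.mul_assoc]
    rwa [d.compl, Matrix.mul_one, Matrix.mul_one] at h1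
  have hzero : ∀ x ∈ T.hd, x = 0 := by
    intro x hx
    have h1 := hd_span hZ hx
    induction h1 using Submodule.span_induction with
    | mem y hy =>
      obtain ⟨R, rfl, hR⟩ := hy
      have h2 : T.IsHodgeEnd R := by
        have h3 := hab _ hR _ T.NC_mem
        apply rC_injective
        change rC (toR R * T.N) = rC (T.N * toR R)
        rw [rC_mul, rC_mul, rC_toR]
        exact h3
      have h3 := hP.2.1 R h2
      have h4 : R.transpose * T.Q = T.Q * R := by
        clear h2 hR hx
        induction h3 using Algebra.adjoin_induction with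
        | mem y hy =>
          rw [Set.mem_singleton_iff] at hy
          rw [hy]
          exact hP.2.2.2
        | algebraMap r =>
          rw [Algebra.algebraMap_eq_smul_one, Matrix.transpose_smul, Matrix.transpose_one,
            Matrix.smul_mul, Matrix.mul_smul, Matrix.one_mul, Matrix.mul_one]
        | add y z _ _ hy hz => rw [Matrix.transpose_add, Matrix.add_mul, Matrix.mul_add, hy, hz]
        | mul y z hy' hz' hy hz =>
          have hc : y * z = z * y := by
            have := (Algebra.isMulCommutative_adjoin ℚ (s := {P}) (by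
              intro a ha b hb
              rw [Set.mem_singleton_iff] at ha hb
              rw [ha, hb])).is_comm.comm ⟨y, hy'⟩ ⟨z, hz'⟩
            exact congrArg Subtype.val this
          rw [Matrix.transpose_mul, Matrix.mul_assoc, hy, ← Matrix.mul_assoc, hz,
            Matrix.mul_assoc, hc]
      have h5 := congrArg toC h4
      rw [toC_mul, toC_mul] at h5
      have h6 : T.QC * toC R = -(T.QC * toC R) := by
        rw [← hR.1]
        exact h5.symm
      have h7 : T.QC * toC R = T.QC * 0 := by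
        rw [Matrix.mul_zero]
        exact zero_of_neg h6
      exact T.QC_cancel h7
    | zero => rfl
    | add y z hy' hz' hy hz =>
      have e1 : y ∈ T.hd := (Submodule.span_le.2 (fun w hw => hw.choose_spec.2)) hy'
      have e2 : z ∈ T.hd := (Submodule.span_le.2 (fun w hw => hw.choose_spec.2)) hz'
      rw [hy e1, hz e2, add_zero]
    | smul c y hy' hy =>
      have e1 : y ∈ T.hd := (Submodule.span_le.2 (fun w hw => hw.choose_spec.2)) hy'
      rw [hy e1, smul_zero]
  have hN : T.N = 0 := by
    apply rC_injective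
    have h1 : rC (0 : Matrix ι ι ℝ) = 0 := by
      ext i j
      simp
    rw [h1]
    exact hzero _ T.NC_mem
  have h2 := T.N_rank
  rw [hN, Matrix.rank_zero] at h2
  exact absurd h2 (by norm_num)

end

end Pool.Agent.W537.KT
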