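import Pool.Agent.W537.DB.LieRad

/-!
# The radical of the trace form is central if two subspaces have stable complements
-/

set_option linter.unusedSectionVars false

namespace Pool.Agent.W537.KT

open Module Pool.Agent.W537.DB

attribute [local instance 100] LieRing.ofAssociativeRing

variable {k V : Type*} [Field k] [CharZero k] [AddCommGroup V] [Module k V] [FiniteDimensional k V]

/-- The common kernel of `S` is the image of an idempotent which commutes with `G`. -/
def HasProj (G S : Submodule k (End k V)) : Prop :=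
  ∃ p : End k V, (∀ x ∈ G, p * x = x * p) ∧ (∀ v, (∀ a ∈ S, a v = 0) → p v = v) ∧
    ∀ a ∈ S, ∀ v, a (p v) = 0

theorem eq_zero_of_common {G S : Submodule k (End k V)} (hG : HasProj G S)
    (hk : ∀ U : Submodule k V, (∀ x ∈ G, ∀ u ∈ U, x u ∈ U) → U ≠ ⊥ →
      ∃ v ∈ U, v ≠ 0 ∧ ∀ a ∈ S, a v = 0) : ∀ a ∈ S, a = 0 := by
  obtain ⟨p, hp1, hp2, hp3⟩ := hG
  have hU : ∀ x ∈ G, ∀ u ∈ LinearMap.ker p, x u ∈ LinearMap.ker p := by
    intro x hx u hu
    rw [LinearMap.mem_ker] at hu ⊢
    have h1 : p (x u) = (p * x) u := rfl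
    rw [h1, hp1 x hx, Module.End.mul_apply, hu, map_zero]
  have hbot : LinearMap.ker p = ⊥ := by
    by_contra hne
    obtain ⟨v, hv, hv0, hva⟩ := hk _ hU hne
    rw [LinearMap.mem_ker, hp2 v hva] at hv
    exact hv0 hv
  intro a ha
  ext v
  have h1 : p (v - p v) = 0 := by
    rw [map_sub, hp2 (p v) (fun b hb => hp3 b hb v), sub_self]
  have h2 : v - p v ∈ LinearMap.ker p := h1
  rw [hbot, Submodule.mem_bot, sub_eq_zero] at h2
  rw [h2]
  exact hp3 a ha v

/-- The span of the brackets. -/
def br (A B : Set (End k V)) : Submodule k (End k V) :=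
  Submodule.span k {z | ∃ a ∈ A, ∃ b ∈ B, z = a * b - b * a}

/-- The radical of the trace form is abelian. -/
theorem rad_comm {G : Submodule k (End k V)} (hG : IsLie G) (hs : HasProj G (br (Rad G) (Rad G)))
    {x y : End k V} (hx : x ∈ Rad G) (hy : y ∈ Rad G) : x * y = y * x := by
  have hSz : ∀ a ∈ br (Rad G) (Rad G), a = 0 := by
    apply eq_zero_of_common hs
    intro U hU hne
    let L := LieAlgebra.derivedSeries k (radLie hG) 1
    let UL : LieSubmodule k L V :=
      { U with
        lie_mem := by
          intro x u hu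
          exact hU _ x.1.2.1 u hu }
    have hn := radLie_nilpotent hG
    have hn1 : LieModule.IsNilpotent L (⊤ : LieSubmodule k L V) :=
      (LieModule.isNilpotent_of_top_iff' (R := k) (L := L) (M := V)).2 hn
    have hn2 : LieModule.IsNilpotent L UL :=
      LieModule.isNilpotent_of_le k L V UL ⊤ le_top
    have hnt : Nontrivial UL := by
      obtain ⟨v, hv, hv0⟩ := Submodule.exists_mem_ne_zero_of_ne_bot hne
      exact ⟨⟨⟨v, hv⟩, 0, fun h => hv0 (congrArg Subtype.val h)⟩⟩
    have := LieModule.nontrivial_max_triv_of_isNilpotent k L UL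
    obtain ⟨⟨v, hv⟩, hv0⟩ := exists_ne (0 : LieModule.maxTrivSubmodule k L UL)
    refine ⟨v.1, v.2, fun h => hv0 (Subtype.ext (Subtype.ext h)), ?_⟩
    intro a ha
    induction ha using Submodule.span_induction with
    | mem a ha =>
      obtain ⟨b, hb, c, hc, rfl⟩ := ha
      have h2 : (⁅(⟨b, hb⟩ : radLie hG), (⟨c, hc⟩ : radLie hG)⁆ : radLie hG) ∈ L := by
        have h3 : (⁅(⟨b, hb⟩ : radLie hG), (⟨c, hc⟩ : radLie hG)⁆ : radLie hG) ∈
            (LieAlgebra.derivedSeries k (radLie hG) 1 : Submodule k (radLie hG)) := by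
          rw [LieAlgebra.coe_derivedSeries_one_eq]
          exact Submodule.subset_span ⟨_, _, rfl⟩
        exact h3
      have h4 := (LieModule.mem_maxTrivSubmodule (R := k) (L := L) (M := UL) v).1 hv ⟨_, h2⟩
      exact congrArg Subtype.val h4
    | zero => rfl
    | add a b _ _ ha hb => rw [LinearMap.add_apply, ha, hb, add_zero]
    | smul c a _ ha => rw [LinearMap.smul_apply, ha, smul_zero]
  exact sub_eq_zero.1 (hSz _ (Submodule.subset_span ⟨x, hx, y, hy, rfl⟩))

theorem bracket_nilpotent {G : Submodule k (End k V)} (hG : IsLie G)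
    (hs : HasProj G (br (Rad G) (Rad G)))
    {a y : End k V} (ha : a ∈ Rad G) (hy : y ∈ G) : IsNilpotent (a * y - y * a) := by
  have hz : a * y - y * a ∈ Rad G := rad_bracket hG ha hy
  apply Pool.Agent.H914.isNilpotent_of_trace_pow
  intro r
  have hc : Commute a ((a * y - y * a) ^ r) := Commute.pow_right (rad_comm hG hs ha hz) r
  rw [pow_succ', sub_mul, map_sub, sub_eq_zero]
  rw [mul_assoc, mul_assoc, LinearMap.trace_mul_comm, mul_assoc, ← hc.eq, ← mul_assoc,
    mul_assoc]

/-- The radical of the trace form is central. -/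
theorem rad_central {G : Submodule k (End k V)} (hG : IsLie G)
    (hs : HasProj G (br (Rad G) (Rad G))) (hs2 : HasProj G (br (Rad G) G))
    {x y : End k V} (hx : x ∈ Rad G) (hy : y ∈ G) : x * y = y * x := by
  have hSR : ∀ z ∈ br (Rad G) (G : Set (End k V)), z ∈ Rad G := by
    intro z hz
    induction hz using Submodule.span_induction with
    | mem z hz =>
      obtain ⟨a, ha, b, hb, rfl⟩ := hz
      exact rad_bracket hG ha hb
    | zero => exact (radLie hG).zero_mem
    | add a b _ _ ha hb => exact (radLie hG).add_mem ha hb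
    | smul c a _ ha => exact (radLie hG).smul_mem c ha
  have hSn : ∀ z ∈ br (Rad G) (G : Set (End k V)), IsNilpotent z := by
    intro z hz
    induction hz using Submodule.span_induction with
    | mem z hz =>
      obtain ⟨a, ha, b, hb, rfl⟩ := hz
      exact bracket_nilpotent hG hs ha hb
    | zero => exact IsNilpotent.zero
    | add a b ha' hb' ha hb =>
      exact Commute.isNilpotent_add (rad_comm hG hs (hSR a ha') (hSR b hb')) ha hb
    | smul c a _ ha => exact ha.smul c
  have hSz : ∀ a ∈ br (Rad G) (G : Set (End k V)), a = 0 := by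
    apply eq_zero_of_common hs2
    intro U hU hne
    let L : LieSubalgebra k (End k V) :=
      { br (Rad G) (G : Set (End k V)) with
        lie_mem' := by
          intro a b ha hb
          have : (⁅a, b⁆ : End k V) = 0 := by
            rw [LieRing.of_associative_ring_bracket, sub_eq_zero]
            exact rad_comm hG hs (hSR a ha) (hSR b hb)
          rw [this]
          exact (br (Rad G) (G : Set (End k V))).zero_mem }
    let UL : LieSubmodule k L V :=
      { U with
        lie_mem := by
          intro x u hu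
          exact hU _ (hSR _ x.2).1 u hu }
    have hn : LieModule.IsNilpotent L V := by
      rw [LieModule.isNilpotent_iff_forall' (R := k)]
      intro x
      obtain ⟨n, hn⟩ := hSn x.1 x.2
      exact ⟨n, by rw [← hn]; rfl⟩
    have hn1 : LieModule.IsNilpotent L (⊤ : LieSubmodule k L V) :=
      (LieModule.isNilpotent_of_top_iff' (R := k) (L := L) (M := V)).2 hn
    have hn2 : LieModule.IsNilpotent L UL :=
      LieModule.isNilpotent_of_le k L V UL ⊤ le_top
    have hnt : Nontrivial UL := by
      obtain ⟨v, hv, hv0⟩ := Submodule.exists_mem_ne_zero_of_ne_bot hne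
      exact ⟨⟨⟨v, hv⟩, 0, fun h => hv0 (congrArg Subtype.val h)⟩⟩
    have := LieModule.nontrivial_max_triv_of_isNilpotent k L UL
    obtain ⟨⟨v, hv⟩, hv0⟩ := exists_ne (0 : LieModule.maxTrivSubmodule k L UL)
    refine ⟨v.1, v.2, fun h => hv0 (Subtype.ext (Subtype.ext h)), ?_⟩
    intro a ha
    have h4 := (LieModule.mem_maxTrivSubmodule (R := k) (L := L) (M := UL) v).1 hv ⟨a, ha⟩
    exact congrArg Subtype.val h4
  exact sub_eq_zero.1 (hSz _ (Submodule.subset_span ⟨x, hx, y, hy, rfl⟩))

end Pool.Agent.W537.KT
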