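import Pool.Agent.W537.KT.Basic
import Pool.Agent.W537.KT.RadA

/-!
# The radical of the trace form commutes with the Lie algebra
-/

set_option linter.unusedSectionVars false

namespace Pool.Agent.W537.KT

open Pool.Agent.W537.DB Matrix Pool.Agent.H204R3.SP

noncomputable section

variable {ι : Type} [Fintype ι] [DecidableEq ι] {K : IntermediateField ℚ ℂ}
variable {g : Submodule ℂ (Matrix ι ι ℂ)}

/-- The radical of the trace form. -/
def radM (g : Submodule ℂ (Matrix ι ι ℂ)) : Submodule ℂ (Matrix ι ι ℂ) where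
  carrier := {x | x ∈ g ∧ ∀ y ∈ g, (x * y).trace = 0}
  zero_mem' := ⟨g.zero_mem, fun y _ => by rw [Matrix.zero_mul, Matrix.trace_zero]⟩
  add_mem' := by
    rintro x y ⟨hx, hx'⟩ ⟨hy, hy'⟩
    exact ⟨g.add_mem hx hy, fun z hz => by
      rw [Matrix.add_mul, Matrix.trace_add, hx' z hz, hy' z hz, add_zero]⟩
  smul_mem' := by
    rintro c x ⟨hx, hx'⟩
    exact ⟨g.smul_mem c hx, fun z hz => by
      rw [Matrix.smul_mul, Matrix.trace_smul, hx' z hz, smul_zero]⟩

theorem kspan_radM (hg : KSpan K g) : KSpan K (radM g) := by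
  classical
  intro x hx
  obtain ⟨b, hb1, hb2, hb3⟩ := exists_linearIndependent ℂ {y | y ∈ g ∧ ∀ i j, y i j ∈ K}
  have hfin : b.Finite := LinearIndependent.setFinite hb3
  let F := hfin.fintype
  have hspan : ∀ x ∈ g, ∃ c : b → ℂ, x = ∑ i, c i • (i : Matrix ι ι ℂ) := by
    intro x hx
    have h1 := hg x hx
    rw [← hb2] at h1
    have h2 : x ∈ Submodule.span ℂ (Set.range (fun i : b => (i : Matrix ι ι ℂ))) := by
      rw [Subtype.range_coe]
      exact h1
    obtain ⟨c, hc⟩ := (Submodule.mem_span_range_iff_exists_fun ℂ).1 h2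
    exact ⟨c, hc.symm⟩
  obtain ⟨c, rfl⟩ := hspan x hx.1
  let S : Set (b → ℂ) := {β | ∃ j : b, β = fun i : b =>
    ((i : Matrix ι ι ℂ) * (j : Matrix ι ι ℂ)).trace}
  have hS : ∀ β ∈ S, ∀ i, β i ∈ K := by
    rintro _ ⟨j, rfl⟩ i
    change ((i : Matrix ι ι ℂ) * (j : Matrix ι ι ℂ)).trace ∈ K
    rw [Matrix.trace]
    refine sum_mem fun p _ => ?_
    rw [Matrix.diag_apply, Matrix.mul_apply]
    exact sum_mem fun q _ => mul_mem ((hb1 i.2).2 _ _) ((hb1 j.2).2 _ _)
  have hsum : ∀ (u : b → ℂ) (j : b), ∑ i : b, ((i : Matrix ι ι ℂ) * (j : Matrix ι ι ℂ)).trace * u i =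
      ((∑ i, u i • (i : Matrix ι ι ℂ)) * (j : Matrix ι ι ℂ)).trace := by
    intro u j
    rw [trace_sum_mul]
    exact Finset.sum_congr rfl fun i _ => mul_comm _ _
  have hw : ∀ β ∈ S, ∑ i, β i * c i = 0 := by
    rintro _ ⟨j, rfl⟩
    rw [hsum]
    exact hx.2 _ (hb1 j.2).1
  have h1 := rational_span K S hS hw
  let L : (b → ℂ) →ₗ[ℂ] Matrix ι ι ℂ := Fintype.linearCombination ℂ (fun i : b => (i : Matrix ι ι ℂ))
  have hL : ∀ u, L u = ∑ i, u i • (i : Matrix ι ι ℂ) := fun u => rfl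
  have h2 : L c ∈ (Submodule.span ℂ
      {u : b → ℂ | (∀ i, u i ∈ K) ∧ ∀ β ∈ S, ∑ i, β i * u i = 0}).map L := ⟨_, h1, rfl⟩
  rw [Submodule.map_span] at h2
  rw [← hL]
  refine Submodule.span_mono ?_ h2
  rintro _ ⟨u, ⟨hu1, hu2⟩, rfl⟩
  rw [hL]
  refine ⟨⟨Submodule.sum_mem _ fun i _ => Submodule.smul_mem _ _ (hb1 i.2).1, ?_⟩, ?_⟩
  · intro y hy
    obtain ⟨d, rfl⟩ := hspan y hy
    rw [Matrix.trace_mul_comm, trace_sum_mul]
    refine Finset.sum_eq_zero fun j _ => ?_
    rw [Matrix.trace_mul_comm, ← hsum, hu2 _ ⟨j, rfl⟩, mul_zero]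
  · intro p q
    rw [Matrix.sum_apply]
    refine sum_mem fun i _ => ?_
    rw [Matrix.smul_apply, smul_eq_mul]
    exact mul_mem (hu1 i) ((hb1 i.2).2 _ _)

/-- The span of the brackets. -/
def brM (A B : Submodule ℂ (Matrix ι ι ℂ)) : Submodule ℂ (Matrix ι ι ℂ) :=
  Submodule.span ℂ {z | ∃ a ∈ A, ∃ b ∈ B, z = a * b - b * a}

theorem kspan_brM {A B : Submodule ℂ (Matrix ι ι ℂ)} (hA : KSpan K A) (hB : KSpan K B) :
    KSpan K (brM A B) := by
  have hle : brM A B ≤ Submodule.span ℂ {y | y ∈ brM A B ∧ ∀ i j, y i j ∈ K} := by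
    unfold brM
    rw [Submodule.span_le]
    rintro _ ⟨a, ha, b, hb, rfl⟩
    change _ ∈ Submodule.span ℂ {y | y ∈ brM A B ∧ ∀ i j, y i j ∈ K}
    have ha' := hA a ha
    clear ha
    induction ha' using Submodule.span_induction with
    | mem a ha =>
      have hb' := hB b hb
      clear hb
      induction hb' using Submodule.span_induction with
      | mem b hb =>
        refine Submodule.subset_span ⟨Submodule.subset_span ⟨a, ha.1, b, hb.1, rfl⟩, ?_⟩
        intro i j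
        rw [Matrix.sub_apply, Matrix.mul_apply, Matrix.mul_apply]
        exact sub_mem (sum_mem fun k _ => mul_mem (ha.2 _ _) (hb.2 _ _))
          (sum_mem fun k _ => mul_mem (hb.2 _ _) (ha.2 _ _))
      | zero => rw [Matrix.mul_zero, Matrix.zero_mul, sub_zero]; exact Submodule.zero_mem _
      | add x y _ _ hx hy =>
        have : a * (x + y) - (x + y) * a = (a * x - x * a) + (a * y - y * a) := by noncomm_ring
        rw [this]
        exact Submodule.add_mem _ hx hy
      | smul c x _ hx =>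
        have : a * (c • x) - (c • x) * a = c • (a * x - x * a) := by
          rw [Matrix.mul_smul, Matrix.smul_mul, smul_sub]
        rw [this]
        exact Submodule.smul_mem _ _ hx
    | zero => rw [Matrix.mul_zero, Matrix.zero_mul, sub_zero]; exact Submodule.zero_mem _
    | add x y _ _ hx hy =>
      have : (x + y) * b - b * (x + y) = (x * b - b * x) + (y * b - b * y) := by noncomm_ring
      rw [this]
      exact Submodule.add_mem _ hx hy
    | smul c x _ hx =>
      have : (c • x) * b - b * (c • x) = c • (x * b - b * x) := by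
        rw [Matrix.mul_smul, Matrix.smul_mul, smul_sub]
      rw [this]
      exact Submodule.smul_mem _ _ hx
  exact fun x hx => hle hx

variable {T : K3Motive ι}

theorem K3Motive.Gen.proj (hg : T.Gen K g) (hK : ∀ x ∈ K, IsAlgebraic ℚ x)
    (hD : T.HodgeDeRham) (hSS : T.Semisimple K) {S : Submodule ℂ (Matrix ι ι ℂ)} (hS : KSpan K S)
    (hSg : ∀ a ∈ S, ∀ x ∈ g, a * x - x * a ∈ S) :
    ∃ p : Matrix ι ι ℂ, (∀ x ∈ g, p * x = x * p) ∧
      (∀ v, (∀ a ∈ S, a *ᵥ v = 0) → p *ᵥ v = v) ∧ ∀ a ∈ S, ∀ v, a *ᵥ (p *ᵥ v) = 0 := by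
  let U : Submodule ℂ (ι → ℂ) :=
    { carrier := {v | ∀ a ∈ S, a *ᵥ v = 0}
      zero_mem' := fun a _ => Matrix.mulVec_zero a
      add_mem' := by
        intro v w hv hw a ha
        rw [Matrix.mulVec_add, hv a ha, hw a ha, add_zero]
      smul_mem' := by
        intro c v hv a ha
        rw [Matrix.mulVec_smul, hv a ha, smul_zero] }
  have hUS : ∀ u : ι → ℂ, (∀ a ∈ S, (∀ i j, a i j ∈ K) → a *ᵥ u = 0) → u ∈ U := by
    intro u hu a ha
    have ha' := hS a ha
    clear ha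
    induction ha' using Submodule.span_induction with
    | mem a ha => exact hu a ha.1 ha.2
    | zero => exact Matrix.zero_mulVec u
    | add x y _ _ hx hy => rw [Matrix.add_mulVec, hx, hy, add_zero]
    | smul c x _ hx => rw [Matrix.smul_mulVec, hx, smul_zero]
  have hsub : T.IsSubobject K U := by
    constructor
    · intro u hu
      let E : Set (ι → ℂ) := {b | ∃ a ∈ S, (∀ i j, a i j ∈ K) ∧ ∃ i, b = a i}
      have hE : ∀ b ∈ E, ∀ i, b i ∈ K := by
        rintro _ ⟨a, _, ha, i, rfl⟩ j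
        exact ha i j
      have hw : ∀ b ∈ E, ∑ i, b i * u i = 0 := by
        rintro _ ⟨a, ha, _, i, rfl⟩
        exact congrFun (hu a ha) i
      refine Submodule.span_mono ?_ (rational_span K E hE hw)
      rintro w ⟨hw1, hw2⟩
      refine ⟨hUS w fun a ha haK => ?_, hw1⟩
      funext i
      exact hw2 _ ⟨a, ha, haK, i, rfl⟩
    · have hst : DStable (U.map (Matrix.toLin' T.C)) := by
        rintro D _ ⟨u, hu, rfl⟩
        refine ⟨T.X D *ᵥ u + fun i => D (u i), ?_, ?_⟩
        · refine U.add_mem ?_ ?_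
          · intro a ha
            have h1 := hSg a ha _ (hg.X_mem D)
            have h2 := hu _ h1
            rw [Matrix.sub_mulVec, ← Matrix.mulVec_mulVec, ← Matrix.mulVec_mulVec, hu a ha,
              Matrix.mulVec_zero, sub_zero] at h2
            exact h2
          · apply hUS
            intro a ha haK
            funext i
            have h1 := congrArg D (congrFun (hu a ha) i)
            rw [Pi.zero_apply, map_zero] at h1
            rw [Pi.zero_apply, ← h1]
            change ∑ j, a i j * D (u j) = D (∑ j, a i j * u j)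
            rw [map_sum]
            refine Finset.sum_congr rfl fun j _ => ?_
            rw [Derivation.leibniz, der_alg D (hK _ (haK i j)), smul_zero, add_zero, smul_eq_mul]
        · rw [Matrix.toLin'_apply, Matrix.mulVec_add, Matrix.mulVec_mulVec, ← T.der_C]
          funext i
          change ∑ j, D (T.C i j) * u j + ∑ j, T.C i j * D (u j) = D ((Matrix.toLin' T.C u) i)
          rw [Matrix.toLin'_apply]
          change _ = D (∑ j, T.C i j * u j)
          rw [map_sum, ← Finset.sum_add_distrib]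
          refine Finset.sum_congr rfl fun j _ => ?_
          rw [Derivation.leibniz, smul_eq_mul, smul_eq_mul]
          ring
      have h1 := dstable_span _ _ rfl hst
      intro u hu
      have h2 := h1 ⟨u, hu, rfl⟩
      have h3 : Matrix.toLin' T.C⁻¹ (Matrix.toLin' T.C u) ∈
          (Submodule.span ℂ {w | w ∈ U.map (Matrix.toLin' T.C) ∧ ∀ i, IsAlgebraic ℚ (w i)}).map
            (Matrix.toLin' T.C⁻¹) := ⟨_, h2, rfl⟩
      rw [Matrix.toLin'_apply, Matrix.toLin'_apply, Matrix.mulVec_mulVec, T.inv_mul,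
        Matrix.one_mulVec, Submodule.map_span] at h3
      refine Submodule.span_mono ?_ h3
      rintro _ ⟨_, ⟨⟨w, hw, rfl⟩, hw2⟩, rfl⟩
      have h4 : Matrix.toLin' T.C⁻¹ (Matrix.toLin' T.C w) = w := by
        rw [Matrix.toLin'_apply, Matrix.toLin'_apply, Matrix.mulVec_mulVec, T.inv_mul,
          Matrix.one_mulVec]
      rw [h4]
      refine ⟨hw, fun i => ?_⟩
      have := hw2 i
      rwa [Matrix.toLin'_apply] at this
  obtain ⟨p, hp1, hp2, hp3, hp4⟩ := hSS U hsub
  refine ⟨p, fun x hx => ?_, fun v hv => hp3 v hv, fun a ha v => hp4 v a ha⟩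
  apply T.comm_of_ann (T.G_skew hD (hg.le hx))
  apply hg.le hx
  constructor
  · intro I
    rw [bil_coeff, Matrix.mul_apply]
    exact sum_mem fun k _ => mul_mem (ratCast_mem K _) (hp1 _ _)
  · intro I
    rw [bil_mulVec]
    have h1 : T.C⁻¹.transpose * (T.QC * p) * T.C⁻¹ =
        (T.C⁻¹.transpose * T.QC * T.C⁻¹) * (T.C * p * T.C⁻¹) := by
      have h2 : (T.C⁻¹.transpose * T.QC * T.C⁻¹) * (T.C * p * T.C⁻¹) =
          T.C⁻¹.transpose * T.QC * (T.C⁻¹ * T.C) * p * T.C⁻¹ := by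
        simp only [Matrix.mul_assoc]
      rw [h2, T.inv_mul, Matrix.mul_one]
      simp only [Matrix.mul_assoc]
    rw [h1, Matrix.mul_apply]
    have h5 : ∀ z : ℂ, z ∈ algebraicClosure ℚ ℂ ↔ IsAlgebraic ℚ z := fun z =>
      mem_algebraicClosure_iff
    rw [← h5]
    exact sum_mem fun k _ => mul_mem ((h5 _).2 (T.QC_deRham hD _ _)) ((h5 _).2 (hp2 _ _))

/-- The space of endomorphisms defined by a space of matrices. -/
def toE (g : Submodule ℂ (Matrix ι ι ℂ)) : Submodule ℂ (Module.End ℂ (ι → ℂ)) :=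
  g.map (Matrix.toLin' : Matrix ι ι ℂ ≃ₗ[ℂ] _).toLinearMap

theorem mem_toE {x : Matrix ι ι ℂ} (hx : x ∈ g) : Matrix.toLin' x ∈ toE g := ⟨x, hx, rfl⟩

theorem rad_toE : Rad (toE g) = (fun x : Matrix ι ι ℂ => Matrix.toLin' x) '' (radM g) := by
  ext z
  constructor
  · rintro ⟨⟨x, hx, rfl⟩, h⟩
    refine ⟨x, ⟨hx, fun y hy => ?_⟩, rfl⟩
    have h1 := h _ (mem_toE hy)
    change LinearMap.trace ℂ (ι → ℂ) (Matrix.toLin' x * Matrix.toLin' y) = 0 at h1
    rw [← toLin'_mul', Matrix.trace_toLin'_eq] at h1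
    exact h1
  · rintro ⟨x, hx, rfl⟩
    refine ⟨mem_toE hx.1, ?_⟩
    rintro _ ⟨y, hy, rfl⟩
    change LinearMap.trace ℂ (ι → ℂ) (Matrix.toLin' x * Matrix.toLin' y) = 0
    rw [← toLin'_mul', Matrix.trace_toLin'_eq]
    exact hx.2 y hy

theorem br_toE (A B : Submodule ℂ (Matrix ι ι ℂ)) :
    br ((fun x : Matrix ι ι ℂ => (Matrix.toLin' x : Module.End ℂ (ι → ℂ))) '' A)
      ((fun x : Matrix ι ι ℂ => (Matrix.toLin' x : Module.End ℂ (ι → ℂ))) '' B) =
      toE (brM A B) := by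
  unfold br toE brM
  rw [Submodule.map_span]
  congr 1
  ext z
  constructor
  · rintro ⟨_, ⟨a, ha, rfl⟩, _, ⟨b, hb, rfl⟩, rfl⟩
    refine ⟨_, ⟨a, ha, b, hb, rfl⟩, ?_⟩
    change Matrix.toLin' (a * b - b * a) = _
    rw [map_sub, toLin'_mul', toLin'_mul']
  · rintro ⟨_, ⟨a, ha, b, hb, rfl⟩, rfl⟩
    refine ⟨_, ⟨a, ha, rfl⟩, _, ⟨b, hb, rfl⟩, ?_⟩
    change Matrix.toLin' (a * b - b * a) = _
    rw [map_sub, toLin'_mul', toLin'_mul']

theorem K3Motive.Gen.hasProj (hg : T.Gen K g) (hK : ∀ x ∈ K, IsAlgebraic ℚ x)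
    (hD : T.HodgeDeRham) (hSS : T.Semisimple K) {S : Submodule ℂ (Matrix ι ι ℂ)} (hS : KSpan K S)
    (hSg : ∀ a ∈ S, ∀ x ∈ g, a * x - x * a ∈ S) : HasProj (toE g) (toE S) := by
  obtain ⟨p, hp1, hp2, hp3⟩ := hg.proj hK hD hSS hS hSg
  refine ⟨Matrix.toLin' p, ?_, fun v hv => ?_, ?_⟩
  · rintro _ ⟨x, hx, rfl⟩
    change Matrix.toLin' p * Matrix.toLin' x = Matrix.toLin' x * Matrix.toLin' p
    rw [← toLin'_mul', ← toLin'_mul', hp1 x hx]
  · rw [Matrix.toLin'_apply]
    apply hp2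
    intro a ha
    have := hv _ (mem_toE ha)
    rwa [Matrix.toLin'_apply] at this
  · rintro _ ⟨a, ha, rfl⟩ v
    change Matrix.toLin' a (Matrix.toLin' p v) = 0
    rw [Matrix.toLin'_apply, Matrix.toLin'_apply]
    exact hp3 a ha v

theorem radM_bracket (hg : ∀ x ∈ g, ∀ y ∈ g, x * y - y * x ∈ g) {x y : Matrix ι ι ℂ}
    (hx : x ∈ radM g) (hy : y ∈ g) : x * y - y * x ∈ radM g := by
  refine ⟨hg x hx.1 y hy, fun z hz => ?_⟩
  have h1 := hx.2 _ (hg y hy z hz)
  rw [Matrix.mul_sub, Matrix.trace_sub, sub_eq_zero] at h1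
  rw [Matrix.sub_mul, Matrix.trace_sub, sub_eq_zero, Matrix.mul_assoc, h1, ← Matrix.mul_assoc,
    Matrix.trace_mul_comm, ← Matrix.mul_assoc]

theorem brM_bracket {A B : Submodule ℂ (Matrix ι ι ℂ)}
    (hA : ∀ a ∈ A, ∀ x ∈ g, a * x - x * a ∈ A) (hB : ∀ a ∈ B, ∀ x ∈ g, a * x - x * a ∈ B)
    {a x : Matrix ι ι ℂ} (ha : a ∈ brM A B) (hx : x ∈ g) : a * x - x * a ∈ brM A B := by
  induction ha using Submodule.span_induction with
  | mem a ha =>
    obtain ⟨b, hb, c, hc, rfl⟩ := ha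
    have h1 : (b * c - c * b) * x - x * (b * c - c * b) =
        ((b * x - x * b) * c - c * (b * x - x * b)) +
          (b * (c * x - x * c) - (c * x - x * c) * b) := by
      noncomm_ring
    rw [h1]
    exact Submodule.add_mem _ (Submodule.subset_span ⟨_, hA b hb x hx, c, hc, rfl⟩)
      (Submodule.subset_span ⟨b, hb, _, hB c hc x hx, rfl⟩)
  | zero => rw [Matrix.zero_mul, Matrix.mul_zero, sub_zero]; exact Submodule.zero_mem _
  | add a b _ _ ha hb =>
    have : (a + b) * x - x * (a + b) = (a * x - x * a) + (b * x - x * b) := by noncomm_ring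
    rw [this]
    exact Submodule.add_mem _ ha hb
  | smul c a _ ha =>
    have : (c • a) * x - x * (c • a) = c • (a * x - x * a) := by
      rw [Matrix.smul_mul, Matrix.mul_smul, smul_sub]
    rw [this]
    exact Submodule.smul_mem _ _ ha

/-- The radical of the trace form commutes with the Lie algebra. -/
theorem K3Motive.Gen.central (hg : T.Gen K g) (hK : ∀ x ∈ K, IsAlgebraic ℚ x)
    (hD : T.HodgeDeRham) (hSS : T.Semisimple K) {x : Matrix ι ι ℂ} (hx : x ∈ g)
    (h0 : ∀ y ∈ g, (x * y).trace = 0) {y : Matrix ι ι ℂ} (hy : y ∈ g) : x * y = y * x := by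
  have hlie : IsLie (toE g) := by
    rintro _ ⟨x, hx, rfl⟩ _ ⟨y, hy, rfl⟩
    refine ⟨x * y - y * x, hg.lie x hx y hy, ?_⟩
    change Matrix.toLin' (x * y - y * x) = _
    rw [map_sub, toLin'_mul', toLin'_mul']
    rfl
  have hrad : ∀ a ∈ radM g, ∀ x ∈ g, a * x - x * a ∈ radM g :=
    fun a ha x hx => radM_bracket hg.lie ha hx
  have hkr := kspan_radM hg.span
  have h1 : HasProj (toE g) (br (Rad (toE g)) (Rad (toE g))) := by
    rw [rad_toE, br_toE]
    exact hg.hasProj hK hD hSS (kspan_brM hkr hkr) fun a ha x hx => brM_bracket hrad hrad ha hx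
  have h2 : HasProj (toE g) (br (Rad (toE g)) (toE g)) := by
    have h3 : ((toE g : Submodule ℂ (Module.End ℂ (ι → ℂ))) : Set (Module.End ℂ (ι → ℂ))) =
        (fun x : Matrix ι ι ℂ => (Matrix.toLin' x : Module.End ℂ (ι → ℂ))) '' g := rfl
    rw [h3, rad_toE, br_toE]
    exact hg.hasProj hK hD hSS (kspan_brM hkr hg.span) fun a ha x hx => brM_bracket hrad hg.lie ha hx
  have hR : Matrix.toLin' x ∈ Rad (toE g) := by
    rw [rad_toE]
    exact ⟨x, ⟨hx, h0⟩, rfl⟩
  have h4 := rad_central hlie h1 h2 hR (mem_toE hy)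
  rw [← toLin'_mul', ← toLin'_mul'] at h4
  exact Matrix.toLin'.injective h4

end

end Pool.Agent.W537.KT
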