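import Pool.Agent.W537.KT.Cas4
import Pool.Agent.W537.KT.RadB
import Pool.Agent.W352.KT.ALT
import Pool.Agent.W249.KT.DEC

/-!
# The Lie algebra of the de Rham-Betti classes is the Lie algebra of the Hodge group
-/

set_option linter.unusedSectionVars false

namespace Pool.Agent.W537.KT

open Pool.Agent.W537.DB Matrix Pool.Agent.H204R3.SP

noncomputable section

variable {ι : Type} [Fintype ι] [DecidableEq ι] {K : IntermediateField ℚ ℂ}
variable {g : Submodule ℂ (Matrix ι ι ℂ)} {m : ℕ}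

/-- A skew matrix which commutes with all skew matrices is zero, in size at least three. -/
theorem skew_central (hm : 2 < m) {N : Matrix (Fin m) (Fin m) ℂ} (hN : N.transpose = -N)
    (h : ∀ x : Matrix (Fin m) (Fin m) ℂ, x.transpose = -x → N * x = x * N) : N = 0 := by
  have h1 : bil N = 0 := by
    refine Pool.Agent.W352.KT.t_ALT m 2 (by norm_num) hm (bil N) (bil_isAlt hN) fun x hx => ?_
    rw [ann_bil, hx, Matrix.neg_mul, h x hx, neg_add_cancel]
  ext i j
  have h2 := bil_coeff N ![i, j]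
  rw [h1] at h2
  exact h2.symm

variable {T : K3Motive ι} {P : Matrix ι ι ℚ}

theorem hd_comm {x : Matrix ι ι ℂ} (hP : T.RealMultiplication P) (hx : x ∈ T.hd) :
    toC P * x = x * toC P := hx.2 P hP.1

/-- An element of `hd` which commutes with `hd` is zero. -/
theorem hd_central (hP : T.RealMultiplication P) (d : Dec T.QC (toC P) m) (hm : 2 < m)
    {x : Matrix ι ι ℂ} (hx : x ∈ T.hd) (h : ∀ y ∈ T.hd, x * y = y * x) : x = 0 := by
  rw [d.eq_sum hP.toC (hd_comm hP hx)]
  refine Finset.sum_eq_zero fun s _ => ?_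
  have h1 : d.comp x s = 0 := by
    refine skew_central hm (d.comp_skew T.QC_T hx.1 s) fun z hz => ?_
    have h2 := h _ (T.phi_mem hP d s hz)
    have h3 := congrArg (fun M => d.comp M s) h2
    have e1 : d.comp (x * d.phi s z) s = d.comp x s * z := by
      have h4 : x * d.phi s z = d.phi s (d.comp x s * z) := by
        unfold Dec.phi
        have h5 : x * (d.B s * z * ((d.B s).transpose * T.QC)) =
            (x * d.B s) * z * ((d.B s).transpose * T.QC) := by
          simp only [Matrix.mul_assoc]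
        rw [h5, d.mul_B hP.toC (hd_comm hP hx)]
        simp only [Matrix.mul_assoc]
      rw [h4, d.comp_phi]
    have e2 : d.comp (d.phi s z * x) s = z * d.comp x s := by
      have h4 : d.phi s z * x = d.phi s (z * d.comp x s) := by
        unfold Dec.phi
        rw [Matrix.mul_assoc (d.B s * z), d.BQ_mul hP.toC (hd_comm hP hx)]
        simp only [Matrix.mul_assoc]
      rw [h4, d.comp_phi]
    change d.comp (x * d.phi s z) s = d.comp (d.phi s z * x) s at h3
    rw [e1, e2] at h3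
    exact h3
  rw [h1, d.phi_zero]

/-- The trace form is nondegenerate on the Lie algebra. -/
theorem K3Motive.Gen.nondeg (hg : T.Gen K g) (hK : ∀ x ∈ K, IsAlgebraic ℚ x)
    (hD : T.HodgeDeRham) (hKS : T.KugaSatake K) (hSS : T.Semisimple K) (hZ : T.Zarhin)
    (hP : T.RealMultiplication P) (d : Dec T.QC (toC P) m) (hm : 2 < m)
    {x : Matrix ι ι ℂ} (hx : x ∈ g) (h0 : ∀ y ∈ g, (x * y).trace = 0) : x = 0 := by
  have hxd := T.G_le_hd hD (hg.le hx)
  refine hd_central hP d hm hxd fun y hy => ?_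
  have h1 : IsAlt (bil (T.QC * x)) := by
    apply bil_isAlt
    rw [Matrix.transpose_mul, T.QC_T, hxd.1]
  have h2 : ∀ z ∈ g, Annihilates z (bil (T.QC * x)) := fun z hz =>
    T.ann_of_comm (T.G_skew hD (hg.le hz)) (hg.central hK hD hSS hx h0 hz)
  exact T.comm_of_ann hy.1 (hg.alt hK hKS hZ h1 h2 hy)

/-- The components of the Casimir element in different factors vanish. -/
theorem sep (hP : T.RealMultiplication P) (d : Dec T.QC (toC P) m) (hm : 2 < m)
    (hg : ∀ x ∈ g, x ∈ T.hd) (D : DualB K g)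
    (hF : ∀ x ∈ T.hd, Annihilates x (F4 T.QC D)) {s t : d.R} (hst : s ≠ t)
    (w z : Fin m → ℂ) :
    letI := D.fin
    ∑ i, (w ⬝ᵥ (d.comp (D.y' i) t *ᵥ z)) • d.comp (D.y i) s = 0 := by
  let _ := D.fin
  change ∑ i, (w ⬝ᵥ (d.comp (D.y' i) t *ᵥ z)) • d.comp (D.y i) s = 0
  set N : Matrix (Fin m) (Fin m) ℂ :=
    ∑ i, (w ⬝ᵥ (d.comp (D.y' i) t *ᵥ z)) • d.comp (D.y i) s with hN
  have hNs : N.transpose = -N := by
    rw [hN, Matrix.transpose_sum, ← Finset.sum_neg_distrib]
    refine Finset.sum_congr rfl fun i _ => ?_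
    rw [Matrix.transpose_smul, d.comp_skew T.QC_T (hg _ (D.y_mem i)).1, smul_neg]
  -- the linear forms on the images of `B`
  have hlf : ∀ (s t : d.R) (u v : Fin m → ℂ) (y : Matrix ι ι ℂ),
      lf T.QC (d.B s *ᵥ u) (d.B t *ᵥ v) y = u ⬝ᵥ (((d.B s).transpose * T.QC * y * d.B t) *ᵥ v) := by
    intro s t u v y
    rw [lf_apply, ← Matrix.vecMul_transpose, ← Matrix.dotProduct_mulVec, Matrix.mulVec_mulVec,
      Matrix.mulVec_mulVec]
    simp only [Matrix.mul_assoc]
  have hoff : ∀ (s t : d.R), s ≠ t → ∀ (u v : Fin m → ℂ) (y : Matrix ι ι ℂ), y ∈ g →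
      lf T.QC (d.B s *ᵥ u) (d.B t *ᵥ v) y = 0 := by
    intro s t hst u v y hy
    rw [hlf, d.off hP.toC (hd_comm hP (hg y hy)) (Ne.symm hst), Matrix.zero_mulVec,
      dotProduct_zero]
  have hF4 : ∀ u v : Fin m → ℂ,
      F4 T.QC D ![d.B s *ᵥ u, d.B s *ᵥ v, d.B t *ᵥ w, d.B t *ᵥ z] = u ⬝ᵥ (N *ᵥ v) := by
    intro u v
    rw [F4_apply]
    have h1 : c4 T.QC D (d.B s *ᵥ u) (d.B t *ᵥ w) (d.B s *ᵥ v) (d.B t *ᵥ z) = 0 := by
      refine Finset.sum_eq_zero fun i _ => ?_
      rw [hoff s t hst _ _ _ (D.y_mem i), zero_mul]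
    have h2 : c4 T.QC D (d.B s *ᵥ u) (d.B t *ᵥ z) (d.B s *ᵥ v) (d.B t *ᵥ w) = 0 := by
      refine Finset.sum_eq_zero fun i _ => ?_
      rw [hoff s t hst _ _ _ (D.y_mem i), zero_mul]
    have h3 : c4 T.QC D (d.B s *ᵥ u) (d.B s *ᵥ v) (d.B t *ᵥ w) (d.B t *ᵥ z) = u ⬝ᵥ (N *ᵥ v) := by
      rw [hN, Matrix.sum_mulVec, dotProduct_sum]
      refine Finset.sum_congr rfl fun i _ => ?_
      rw [hlf, hlf, Matrix.smul_mulVec, dotProduct_smul, smul_eq_mul, mul_comm]
      rfl
    change c4 T.QC D (d.B s *ᵥ u) (d.B s *ᵥ v) (d.B t *ᵥ w) (d.B t *ᵥ z) -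
      c4 T.QC D (d.B s *ᵥ u) (d.B t *ᵥ w) (d.B s *ᵥ v) (d.B t *ᵥ z) +
      c4 T.QC D (d.B s *ᵥ u) (d.B t *ᵥ z) (d.B s *ᵥ v) (d.B t *ᵥ w) = _
    rw [h1, h2, h3]
    ring
  have hkey : ∀ x : Matrix (Fin m) (Fin m) ℂ, x.transpose = -x → N * x = x * N := by
    intro x hx
    have h1 := hF _ (T.phi_mem hP d s hx)
    have hBs : ∀ u : Fin m → ℂ, d.phi s x *ᵥ (d.B s *ᵥ u) = d.B s *ᵥ (x *ᵥ u) := by
      intro u
      rw [Matrix.mulVec_mulVec, Matrix.mulVec_mulVec]
      congr 1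
      unfold Dec.phi
      rw [Matrix.mul_assoc, d.orth, Matrix.mul_one]
    have hBt : ∀ u : Fin m → ℂ, d.phi s x *ᵥ (d.B t *ᵥ u) = 0 := by
      intro u
      rw [Matrix.mulVec_mulVec]
      unfold Dec.phi
      rw [Matrix.mul_assoc, d.orth' s t hst, Matrix.mul_zero, Matrix.zero_mulVec]
    have h2 : x.transpose * N + N * x = 0 := by
      ext a b
      have h3 := h1 ![d.B s *ᵥ Pi.single a 1, d.B s *ᵥ Pi.single b 1, d.B t *ᵥ w, d.B t *ᵥ z]
      rw [Fin.sum_univ_four] at h3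
      have e0 : Function.update ![d.B s *ᵥ Pi.single a 1, d.B s *ᵥ Pi.single b 1, d.B t *ᵥ w,
          d.B t *ᵥ z] 0 (d.phi s x *ᵥ (d.B s *ᵥ Pi.single a 1)) =
          ![d.B s *ᵥ (x *ᵥ Pi.single a 1), d.B s *ᵥ Pi.single b 1, d.B t *ᵥ w, d.B t *ᵥ z] := by
        rw [hBs]
        funext k
        fin_cases k <;> rfl
      have e1 : Function.update ![d.B s *ᵥ Pi.single a 1, d.B s *ᵥ Pi.single b 1, d.B t *ᵥ w,
          d.B t *ᵥ z] 1 (d.phi s x *ᵥ (d.B s *ᵥ Pi.single b 1)) =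
          ![d.B s *ᵥ Pi.single a 1, d.B s *ᵥ (x *ᵥ Pi.single b 1), d.B t *ᵥ w, d.B t *ᵥ z] := by
        rw [hBs]
        funext k
        fin_cases k <;> rfl
      have e2 : F4 T.QC D (Function.update ![d.B s *ᵥ Pi.single a 1, d.B s *ᵥ Pi.single b 1,
          d.B t *ᵥ w, d.B t *ᵥ z] 2 (d.phi s x *ᵥ (d.B t *ᵥ w))) = 0 := by
        rw [hBt]
        exact (F4 T.QC D).map_update_zero _ _
      have e3 : F4 T.QC D (Function.update ![d.B s *ᵥ Pi.single a 1, d.B s *ᵥ Pi.single b 1,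
          d.B t *ᵥ w, d.B t *ᵥ z] 3 (d.phi s x *ᵥ (d.B t *ᵥ z))) = 0 := by
        rw [hBt]
        exact (F4 T.QC D).map_update_zero _ _
      change F4 T.QC D (Function.update ![d.B s *ᵥ Pi.single a 1, d.B s *ᵥ Pi.single b 1,
          d.B t *ᵥ w, d.B t *ᵥ z] 0 (d.phi s x *ᵥ (d.B s *ᵥ Pi.single a 1))) +
        F4 T.QC D (Function.update ![d.B s *ᵥ Pi.single a 1, d.B s *ᵥ Pi.single b 1,
          d.B t *ᵥ w, d.B t *ᵥ z] 1 (d.phi s x *ᵥ (d.B s *ᵥ Pi.single b 1))) +
        F4 T.QC D (Function.update ![d.B s *ᵥ Pi.single a 1, d.B s *ᵥ Pi.single b 1,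
          d.B t *ᵥ w, d.B t *ᵥ z] 2 (d.phi s x *ᵥ (d.B t *ᵥ w))) +
        F4 T.QC D (Function.update ![d.B s *ᵥ Pi.single a 1, d.B s *ᵥ Pi.single b 1,
          d.B t *ᵥ w, d.B t *ᵥ z] 3 (d.phi s x *ᵥ (d.B t *ᵥ z))) = 0 at h3
      rw [e0, e1, e2, e3, hF4, hF4, add_zero, add_zero] at h3
      rw [Matrix.add_apply, Matrix.zero_apply, ← h3]
      congr 1
      · rw [← Matrix.vecMul_transpose, ← Matrix.dotProduct_mulVec, single_one_dotProduct,
          Matrix.mulVec_mulVec, Matrix.mulVec_single_one]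
        rfl
      · rw [single_one_dotProduct, Matrix.mulVec_mulVec, Matrix.mulVec_single_one]
        rfl
    rw [hx, Matrix.neg_mul, neg_add_eq_zero] at h2
    exact h2.symm
  exact skew_central hm hNs hkey

theorem sep_trace (hP : T.RealMultiplication P) (d : Dec T.QC (toC P) m) (hm : 2 < m)
    (hg : ∀ x ∈ g, x ∈ T.hd) (D : DualB K g)
    (hF : ∀ x ∈ T.hd, Annihilates x (F4 T.QC D)) {s t : d.R} (hst : s ≠ t)
    (M : Matrix (Fin m) (Fin m) ℂ) :
    letI := D.fin
    ∑ i, (M * d.comp (D.y' i) t).trace • d.comp (D.y i) s = 0 := by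
  let _ := D.fin
  change ∑ i, (M * d.comp (D.y' i) t).trace • d.comp (D.y i) s = 0
  have h1 : ∀ Y : Matrix (Fin m) (Fin m) ℂ, (M * Y).trace =
      ∑ a, ∑ b, M a b * ((Pi.single b 1 : Fin m → ℂ) ⬝ᵥ (Y *ᵥ Pi.single a 1)) := by
    intro Y
    rw [Matrix.trace]
    refine Finset.sum_congr rfl fun a _ => ?_
    rw [Matrix.diag_apply, Matrix.mul_apply]
    refine Finset.sum_congr rfl fun b _ => ?_
    rw [single_one_dotProduct, Matrix.mulVec_single_one]
    rfl
  have h2 : ∑ i, (M * d.comp (D.y' i) t).trace • d.comp (D.y i) s =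
      ∑ a, ∑ b, M a b • ∑ i, ((Pi.single b 1 : Fin m → ℂ) ⬝ᵥ
        (d.comp (D.y' i) t *ᵥ Pi.single a 1)) • d.comp (D.y i) s := by
    simp only [h1, Finset.sum_smul, Finset.smul_sum, smul_smul]
    rw [Finset.sum_comm]
    refine Finset.sum_congr rfl fun a _ => ?_
    rw [Finset.sum_comm]
  rw [h2]
  refine Finset.sum_eq_zero fun a _ => Finset.sum_eq_zero fun b _ => ?_
  rw [sep hP d hm hg D hF hst, smul_zero]

/-- The Lie algebra contains the components of its elements. -/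
theorem phi_comp_mem (hP : T.RealMultiplication P) (d : Dec T.QC (toC P) m) (hm : 2 < m)
    (hg : ∀ x ∈ g, x ∈ T.hd) (D : DualB K g)
    (hF : ∀ x ∈ T.hd, Annihilates x (F4 T.QC D)) {y : Matrix ι ι ℂ} (hy : y ∈ g) (s : d.R) :
    d.phi s (d.comp y s) ∈ g := by
  let _ := D.fin
  set w : Matrix ι ι ℂ := ∑ i, (d.comp y s * d.comp (D.y' i) s).trace • D.y i with hw
  have hwg : w ∈ g := Submodule.sum_mem _ fun i _ => Submodule.smul_mem _ _ (D.y_mem i)
  have h1 : ∀ t, t ≠ s → d.comp w t = 0 := by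
    intro t ht
    rw [hw, d.comp_sum]
    exact sep_trace hP d hm hg D hF ht _
  have h2 : d.comp w s = d.comp y s := by
    rw [hw, d.comp_sum]
    conv_rhs => rw [D.exp y hy, d.comp_sum]
    have h3 : ∀ i, (y * D.y' i).trace = ∑ t, (d.comp y t * d.comp (D.y' i) t).trace :=
      fun i => d.trace_mul hP.toC (hd_comm hP (hg y hy))
    simp only [h3, Finset.sum_smul]
    rw [Finset.sum_comm, Finset.sum_eq_single s]
    · intro t _ hts
      exact sep_trace hP d hm hg D hF (Ne.symm hts) _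
    · intro h
      exact absurd (Finset.mem_univ _) h
  have h3 : w = d.phi s (d.comp w s) := by
    conv_lhs => rw [d.eq_sum hP.toC (hd_comm hP (hg w hwg))]
    rw [Finset.sum_eq_single s]
    · intro t _ hts
      rw [h1 t hts, d.phi_zero]
    · intro h
      exact absurd (Finset.mem_univ _) h
  rw [← h2, ← h3]
  exact hwg

/-- The pull back of a form by a linear map. -/
theorem ann_pull {κ : Type} [Fintype κ] [DecidableEq κ] (f : Form (Fin m) κ)
    (A : Matrix (Fin m) ι ℂ) (x : Matrix ι ι ℂ) (y : Matrix (Fin m) (Fin m) ℂ)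
    (h : A * x = y * A) (v : κ → ι → ℂ) :
    ∑ k, (f.compLinearMap fun _ => Matrix.toLin' A) (Function.update v k (x *ᵥ v k)) =
      ∑ k, f (Function.update (fun l => A *ᵥ v l) k (y *ᵥ (A *ᵥ v k))) := by
  refine Finset.sum_congr rfl fun k _ => ?_
  rw [MultilinearMap.compLinearMap_apply]
  congr 1
  funext l
  by_cases hl : l = k
  · subst hl
    rw [Function.update_self, Function.update_self, Matrix.toLin'_apply, Matrix.mulVec_mulVec, h,
      ← Matrix.mulVec_mulVec]
  · rw [Function.update_of_ne hl, Function.update_of_ne hl, Matrix.toLin'_apply]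

/-- The Lie algebra contains all skew maps that commute with the Hodge endomorphisms. -/
theorem K3Motive.Gen.hd_le (hg : T.Gen K g) (hK : ∀ x ∈ K, IsAlgebraic ℚ x)
    (hD : T.HodgeDeRham) (hKS : T.KugaSatake K) (hSS : T.Semisimple K) (hZ : T.Zarhin)
    (hP : T.RealMultiplication P) (d : Dec T.QC (toC P) m) (hm : 2 < m)
    (hW : SphereProperty m) : T.hd ≤ g := by
  have hgd : ∀ x ∈ g, x ∈ T.hd := fun x hx => T.G_le_hd hD (hg.le hx)
  have hnd : ∀ x ∈ g, (∀ y ∈ g, (x * y).trace = 0) → x = 0 := fun x hx h0 =>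
    hg.nondeg hK hD hKS hSS hZ hP d hm hx h0
  obtain ⟨D⟩ := exists_dualB K g hg.span hnd
  have hF : ∀ x ∈ T.hd, Annihilates x (F4 T.QC D) := fun x hx =>
    hg.alt hK hKS hZ (F4_isAlt T.QC T.QC_T (fun y hy => (hgd y hy).1) D)
      (fun z hz => F4_killed T.QC (fun y hy => (hgd y hy).1) D hg.lie hz) hx
  have hphi : ∀ y ∈ g, ∀ s, d.phi s (d.comp y s) ∈ g := fun y hy s =>
    phi_comp_mem hP d hm hgd D hF hy s
  -- the components of the Lie algebra
  have hcomp : ∀ s (z : Matrix (Fin m) (Fin m) ℂ), z.transpose = -z → d.phi s z ∈ g := by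
    intro s
    let gs : Submodule ℂ (Matrix (Fin m) (Fin m) ℂ) :=
      { carrier := {z | z.transpose = -z ∧ d.phi s z ∈ g}
        zero_mem' := ⟨by rw [Matrix.transpose_zero, neg_zero], by
          rw [d.phi_zero]
          exact g.zero_mem⟩
        add_mem' := by
          rintro x y ⟨hx, hx'⟩ ⟨hy, hy'⟩
          refine ⟨by rw [Matrix.transpose_add, hx, hy, neg_add], ?_⟩
          rw [d.phi_add]
          exact g.add_mem hx' hy'
        smul_mem' := by
          rintro c x ⟨hx, hx'⟩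
          refine ⟨by rw [Matrix.transpose_smul, hx, smul_neg], ?_⟩
          rw [d.phi_smul]
          exact g.smul_mem c hx' }
    have hcs : ∀ y ∈ g, d.comp y s ∈ gs := fun y hy =>
      ⟨d.comp_skew T.QC_T (hgd y hy).1 s, hphi y hy s⟩
    intro z hz
    have h1 := hW gs (fun x hx => hx.1) ?_ ?_ ?_ z hz
    · exact h1.2
    · rintro x ⟨hx, hx'⟩ y ⟨hy, hy'⟩
      refine ⟨?_, ?_⟩
      · rw [Matrix.transpose_sub, Matrix.transpose_mul, Matrix.transpose_mul, hx, hy]
        simp only [Matrix.neg_mul, Matrix.mul_neg, neg_neg]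
        abel
      · rw [d.phi_sub, ← d.phi_mul, ← d.phi_mul]
        exact hg.lie _ hx' _ hy'
    · rintro x ⟨hx, hx'⟩ h0
      have h2 : d.phi s x = 0 := by
        apply hnd _ hx'
        intro y hy
        rw [d.trace_phi]
        exact h0 _ (hcs y hy)
      rw [← d.comp_phi s x, h2]
      unfold Dec.comp
      rw [Matrix.mul_zero, Matrix.zero_mul]
    · intro j hj hjm f hf hann
      refine Pool.Agent.W352.KT.t_ALT m j hj hjm f hf fun x hx => ?_
      set A : Matrix (Fin m) ι ℂ := (d.B s).transpose * T.QC with hA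
      have h2 : IsAlt (f.compLinearMap fun _ : Fin j => Matrix.toLin' A) := by
        intro a b hab v
        rw [MultilinearMap.compLinearMap_apply, MultilinearMap.compLinearMap_apply]
        exact hf a b hab (fun k => Matrix.toLin' A (v k))
      have h3 : ∀ y ∈ g, Annihilates y (f.compLinearMap fun _ : Fin j => Matrix.toLin' A) := by
        intro y hy v
        rw [ann_pull f A y (d.comp y s) (d.BQ_mul hP.toC (hd_comm hP (hgd y hy)) s)]
        exact hann _ (hcs y hy) (fun l => A *ᵥ v l)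
      have h4 := hg.alt hK hKS hZ h2 h3 (T.phi_mem hP d s hx)
      intro v
      have h5 := h4 (fun l => d.B s *ᵥ v l)
      have h6 : A * d.phi s x = x * A := by
        rw [hA]
        unfold Dec.phi
        have h8 : (d.B s).transpose * T.QC * (d.B s * x * ((d.B s).transpose * T.QC)) =
            ((d.B s).transpose * T.QC * d.B s) * x * ((d.B s).transpose * T.QC) := by
          simp only [Matrix.mul_assoc]
        rw [h8, d.orth, Matrix.one_mul]
      rw [ann_pull f A _ x h6] at h5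
      have h7 : ∀ u : Fin m → ℂ, A *ᵥ (d.B s *ᵥ u) = u := by
        intro u
        rw [Matrix.mulVec_mulVec, hA, d.orth, Matrix.one_mulVec]
      simp only [h7] at h5
      exact h5
  intro x hx
  rw [d.eq_sum hP.toC (hd_comm hP hx)]
  exact Submodule.sum_mem _ fun s _ => hcomp s _ (d.comp_skew T.QC_T hx.1 s)

end

end Pool.Agent.W537.KT
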