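import Pool.Agent.W537.KT.Final
import Pool.Agent.H340R2.LW

/-!
# De Rham-Betti classes on the Tate twists of the tensor powers
-/

set_option linter.unusedSectionVars false

namespace Pool.Agent.W537.KT

open Pool.Agent.W537.DB Matrix Pool.Agent.H204R3.SP

noncomputable section

variable {ι : Type} [Fintype ι] [DecidableEq ι]

/-- A de Rham-Betti class with coefficients in `K` in `T ^ {⊗ n} (k)`: the Betti coefficients of
the form `f` lie in `K`, and its de Rham coefficients, multiplied by `(2 π i) ^ k`, are algebraic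
numbers. -/
def K3Motive.IsTwistedDRB (T : K3Motive ι) (K : IntermediateField ℚ ℂ) (k : ℤ) {n : ℕ}
    (f : Form ι (Fin n)) : Prop :=
  HasCoeff K f ∧ ∀ I : Fin n → ι, IsAlgebraic ℚ ((2 * Real.pi * Complex.I) ^ k *
    f (fun l => T.C⁻¹ *ᵥ Pi.single (I l) 1))

variable {K : IntermediateField ℚ ℂ} {T : K3Motive ι} {P : Matrix ι ι ℚ} {m : ℕ}
variable {κ : Type} [Fintype κ] [DecidableEq κ]

theorem killM_bracket {X Y : Module.End ℂ (ι → ℂ)} {f : Form ι κ} {a b : ℂ}
    (hX : killM X f = a • f) (hY : killM Y f = b • f) : killM (X * Y - Y * X) f = 0 := by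
  refine MultilinearMap.ext fun v => ?_
  rw [killM_apply, _root_.zero_apply]
  -- the double sums
  have key : ∀ (A B : Module.End ℂ (ι → ℂ)) (c : ℂ), killM B f = c • f →
      ∑ j, f (Function.update v j (B (A (v j)))) =
        c * killM A f v - ∑ j, ∑ k ∈ Finset.univ.erase j,
          f (Function.update (Function.update v j (A (v j))) k (B (v k))) := by
    intro A B c hB
    rw [killM_apply, Finset.mul_sum, ← Finset.sum_sub_distrib]
    refine Finset.sum_congr rfl fun j _ => ?_
    have h1 := killM_apply B f (Function.update v j (A (v j)))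
    rw [hB, ← Finset.add_sum_erase _ _ (Finset.mem_univ j), Function.update_self,
      Function.update_idem, _root_.smul_apply, smul_eq_mul] at h1
    rw [h1, add_sub_assoc, left_eq_add, sub_eq_zero]
    refine Finset.sum_congr rfl fun k hk => ?_
    rw [Function.update_of_ne (Finset.ne_of_mem_erase hk)]
  have h1 : ∀ k, f (Function.update v k ((X * Y - Y * X) (v k))) =
      f (Function.update v k (X (Y (v k)))) - f (Function.update v k (Y (X (v k)))) := by
    intro k
    rw [LinearMap.sub_apply, MultilinearMap.map_update_sub]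
    rfl
  rw [Finset.sum_congr rfl (fun k _ => h1 k), Finset.sum_sub_distrib, key Y X a hX, key X Y b hY]
  have h2 : ∑ j, ∑ k ∈ Finset.univ.erase j,
      f (Function.update (Function.update v j (Y (v j))) k (X (v k))) =
      ∑ j, ∑ k ∈ Finset.univ.erase j,
      f (Function.update (Function.update v j (X (v j))) k (Y (v k))) := by
    have h3 : ∀ (A B : Module.End ℂ (ι → ℂ)), ∑ j, ∑ k ∈ Finset.univ.erase j,
        f (Function.update (Function.update v j (A (v j))) k (B (v k))) =
        ∑ j, ∑ k, if k ≠ j then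
          f (Function.update (Function.update v j (A (v j))) k (B (v k))) else 0 := by
      intro A B
      refine Finset.sum_congr rfl fun j _ => ?_
      rw [← Finset.sum_filter]
      refine Finset.sum_congr ?_ fun _ _ => rfl
      ext k
      simp
    rw [h3, h3, Finset.sum_comm]
    refine Finset.sum_congr rfl fun j _ => Finset.sum_congr rfl fun k _ => ?_
    by_cases h : k = j
    · subst h
      simp
    · rw [if_pos (Ne.symm h), if_pos h, Function.update_comm (Ne.symm h)]
  rw [h2, hX, hY, _root_.smul_apply, _root_.smul_apply, smul_eq_mul, smul_eq_mul]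
  ring

/-- The logarithmic derivative of the period matrix acts on a twisted de Rham-Betti class by a
scalar. -/
theorem killM_twist (hK : ∀ x ∈ K, IsAlgebraic ℚ x) {k : ℤ} {n : ℕ} {f : Form ι (Fin n)}
    (hf : T.IsTwistedDRB K k f) (D : Derivation ℤ ℂ ℂ) :
    killM (Matrix.toLin' (T.X D)) f = ((k : ℂ) * lam D) • f := by
  have h0 : (2 * Real.pi * Complex.I : ℂ) ^ k ≠ 0 := zpow_ne_zero _ two_pi_I_ne
  rw [← sub_eq_zero]
  refine form_zero T.inv_unit _ fun I => ?_
  set w : Fin n → ι → ℂ := fun l => T.C⁻¹ *ᵥ (Pi.single (I l) 1) with hw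
  have h1 := der_alg D (hf.2 I)
  rw [Derivation.leibniz, T.der_coeff D f (fun I => hK _ (hf.1 I)) I] at h1
  have h2 : D ((2 * Real.pi * Complex.I) ^ k) =
      ((k : ℂ) * lam D) * (2 * Real.pi * Complex.I) ^ k := by
    rw [Derivation.leibniz_zpow]
    unfold lam
    have h5 := two_pi_I_ne
    rw [zpow_sub_one₀ h5, smul_eq_mul, zsmul_eq_mul]
    field_simp
  rw [h2, smul_eq_mul, smul_eq_mul] at h1
  change killM (Matrix.toLin' (T.X D)) f w - (((k : ℂ) * lam D) • f) w = 0
  rw [_root_.smul_apply, smul_eq_mul]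
  have h3 : (2 * Real.pi * Complex.I : ℂ) ^ k *
      (killM (Matrix.toLin' (T.X D)) f w - (k : ℂ) * lam D * f w) = 0 := by
    linear_combination -h1
  exact (mul_eq_zero.1 h3).resolve_left h0

/-- The matrices of `G` that act on `f` by a scalar. -/
def Gf (T : K3Motive ι) (K : IntermediateField ℚ ℂ) {n : ℕ} (f : Form ι (Fin n)) :
    Submodule ℂ (Matrix ι ι ℂ) where
  carrier := {x | x ∈ T.G K ∧ ∃ c : ℂ, killM (Matrix.toLin' x) f = c • f}
  zero_mem' := ⟨(T.G K).zero_mem, 0, by
    have := (ann_iff (0 : Matrix ι ι ℂ) f).1 (ann_zero f)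
    rw [this, zero_smul]⟩
  add_mem' := by
    rintro x y ⟨hx, c, hc⟩ ⟨hy, c', hc'⟩
    exact ⟨(T.G K).add_mem hx hy, c + c', by rw [map_add, killM_add, hc, hc', add_smul]⟩
  smul_mem' := by
    rintro a x ⟨hx, c, hc⟩
    exact ⟨(T.G K).smul_mem a hx, a * c, by rw [map_smul, killM_smul, hc, smul_smul]⟩

theorem Gf_span {n : ℕ} {f : Form ι (Fin n)} (hf : HasCoeff K f) : KSpan K (Gf T K f) := by
  intro x hx
  obtain ⟨hxG, c, hc⟩ := hx
  let S : Set (Option (ι × ι) → ℂ) :=
    {b | (∃ l, ∃ F : Form ι (Fin l), T.IsDRB K F ∧ ∃ I, b = fun o => o.elim 0 (killCo F I)) ∨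
      ∃ I, b = fun o => o.elim (-coeff f I) (killCo f I)}
  have hco : ∀ {l : ℕ} (F : Form ι (Fin l)), HasCoeff K F → ∀ I p, killCo F I p ∈ K := by
    intro l F hF I p
    unfold killCo
    refine sum_mem fun k _ => ?_
    split_ifs
    · exact hF _
    · exact zero_mem _
  have hS : ∀ b ∈ S, ∀ i, b i ∈ K := by
    rintro _ (⟨l, F, hF, I, rfl⟩ | ⟨I, rfl⟩) (_ | p)
    · exact zero_mem _
    · exact hco F hF.1 I p
    · exact neg_mem (hf I)
    · exact hco f hf I p
  have hw : ∀ b ∈ S, ∑ i, b i * (fun o : Option (ι × ι) => o.elim c (fun p => x p.1 p.2)) i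
      = 0 := by
    rintro _ (⟨l, F, hF, I, rfl⟩ | ⟨I, rfl⟩)
    · rw [Fintype.sum_option]
      change 0 * c + ∑ p : ι × ι, killCo F I p * x p.1 p.2 = 0
      rw [(ann_co x F).1 (hxG l F hF) I, zero_mul, add_zero]
    · rw [Fintype.sum_option]
      change -coeff f I * c + ∑ p : ι × ι, killCo f I p * x p.1 p.2 = 0
      rw [← killM_co, hc, _root_.smul_apply, smul_eq_mul]
      unfold coeff
      ring
  have h1 := rational_span K S hS hw
  let L : (Option (ι × ι) → ℂ) →ₗ[ℂ] Matrix ι ι ℂ :=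
    { toFun := fun w => Matrix.of fun i j => w (some (i, j))
      map_add' := fun _ _ => rfl
      map_smul' := fun _ _ => rfl }
  have h2 : L (fun o : Option (ι × ι) => o.elim c (fun p => x p.1 p.2)) ∈ (Submodule.span ℂ
      {u : Option (ι × ι) → ℂ | (∀ i, u i ∈ K) ∧ ∀ b ∈ S, ∑ i, b i * u i = 0}).map L :=
    ⟨_, h1, rfl⟩
  rw [Submodule.map_span] at h2
  refine Submodule.span_mono ?_ h2
  rintro _ ⟨u, ⟨hu1, hu2⟩, rfl⟩
  refine ⟨⟨fun l F hF => ?_, u none, ?_⟩, fun i j => hu1 (some (i, j))⟩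
  · rw [ann_co]
    intro I
    have h3 := hu2 _ (Or.inl ⟨l, F, hF, I, rfl⟩)
    rw [Fintype.sum_option] at h3
    change 0 * u none + ∑ p : ι × ι, killCo F I p * u (some p) = 0 at h3
    rw [zero_mul, zero_add] at h3
    exact h3
  · rw [← sub_eq_zero]
    refine form_single_zero _ fun I => ?_
    change killM (Matrix.toLin' (L u)) f (fun l => Pi.single (I l) 1) -
      (u none • f) (fun l => Pi.single (I l) 1) = 0
    rw [killM_co, _root_.smul_apply, smul_eq_mul]
    have h3 := hu2 _ (Or.inr ⟨I, rfl⟩)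
    rw [Fintype.sum_option] at h3
    change -coeff f I * u none + ∑ p : ι × ι, killCo f I p * u (some p) = 0 at h3
    change ∑ p : ι × ι, killCo f I p * u (some p) - u none * coeff f I = 0
    linear_combination h3

theorem Gf_gen (hK : ∀ x ∈ K, IsAlgebraic ℚ x) {k : ℤ} {n : ℕ} {f : Form ι (Fin n)}
    (hf : T.IsTwistedDRB K k f) : T.Gen K (Gf T K f) where
  lie := by
    rintro x ⟨hx, c, hc⟩ y ⟨hy, c', hc'⟩
    refine ⟨(T.G_gen hK).lie x hx y hy, 0, ?_⟩
    have h1 := killM_bracket hc hc'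
    rw [map_sub, toLin'_mul', toLin'_mul', h1, zero_smul]
  span := Gf_span hf.1
  X_mem := fun D => ⟨T.X_mem hK D, _, killM_twist hK hf D⟩
  le := fun _ hx => hx.1

/-- There is a derivation which is not zero on `2 π i`. -/
theorem exists_lam : ∃ D : Derivation ℤ ℂ ℂ, lam D ≠ 0 := by
  by_contra h
  push Not at h
  have h1 : IsAlgebraic ℚ (2 * Real.pi * Complex.I : ℂ) := by
    apply alg_of_der
    intro D
    have h2 := h D
    unfold lam at h2
    exact (div_eq_zero_iff.1 h2).resolve_right two_pi_I_ne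
  apply Pool.Agent.H340R2.LW.transcendental_pi_complex
  have hI : IsAlgebraic ℚ (2 * Complex.I) := by
    have h2 : IsAlgebraic ℚ (2 : ℂ) := by
      have := isAlgebraic_algebraMap (R := ℚ) (A := ℂ) 2
      simpa using this
    exact h2.mul Pool.Agent.H340R2.LW.isAlgebraic_I
  have h3 : (Real.pi : ℂ) = (2 * Real.pi * Complex.I) * (2 * Complex.I)⁻¹ := by
    have := Complex.I_ne_zero
    field_simp
  rw [h3]
  exact h1.mul hI.inv

/-- A de Rham-Betti class on a nontrivial Tate twist is zero. -/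
theorem twist_zero (hK : ∀ x ∈ K, IsAlgebraic ℚ x)
    (hD : T.HodgeDeRham) (hKS : T.KugaSatake K) (hSS : T.Semisimple K) (hZ : T.Zarhin)
    (hP : T.RealMultiplication P) (d : Dec T.QC (toC P) m) (hm : 2 < m)
    (hW : SphereProperty m) {k : ℤ} (hk : k ≠ 0) {n : ℕ} {f : Form ι (Fin n)}
    (hf : T.IsTwistedDRB K k f) : f = 0 := by
  have hle := (Gf_gen hK hf).hd_le hK hD hKS hSS hZ hP d hm hW
  have hG := T.G_gen hK
  have hnd : ∀ x ∈ T.G K, (∀ y ∈ T.G K, (x * y).trace = 0) → x = 0 := fun x hx h0 =>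
    hG.nondeg hK hD hKS hSS hZ hP d hm hx h0
  obtain ⟨B⟩ := exists_dualB K (T.G K) hG.span hnd
  let _ := B.fin
  have hsc : ∀ x ∈ T.G K, ∃ c : ℂ, killM (Matrix.toLin' x) f = c • f := fun x hx =>
    (hle (T.G_le_hd hD hx)).2
  refine MultilinearMap.ext fun v => ?_
  rw [_root_.zero_apply]
  -- the linear form
  let a : Matrix ι ι ℂ →ₗ[ℂ] ℂ :=
    { toFun := fun x => killM (Matrix.toLin' x) f v
      map_add' := by
        intro x y
        rw [map_add, killM_add]
        rfl
      map_smul' := by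
        intro c x
        rw [map_smul, killM_smul]
        rfl }
  have hbr : ∀ x ∈ T.G K, ∀ y ∈ T.G K, a (x * y - y * x) = 0 := by
    intro x hx y hy
    obtain ⟨c, hc⟩ := hsc x hx
    obtain ⟨c', hc'⟩ := hsc y hy
    change killM (Matrix.toLin' (x * y - y * x)) f v = 0
    rw [map_sub, toLin'_mul', toLin'_mul', killM_bracket hc hc']
    rfl
  set h : Matrix ι ι ℂ := ∑ i, a (B.y i) • B.y' i with hh
  have hhG : h ∈ T.G K := Submodule.sum_mem _ fun i _ => Submodule.smul_mem _ _ (B.y'_mem i)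
  have hrep : ∀ x ∈ T.G K, a x = (x * h).trace := by
    intro x hx
    conv_lhs => rw [B.exp x hx, map_sum]
    rw [hh, Finset.mul_sum, Matrix.trace_sum]
    refine Finset.sum_congr rfl fun i _ => ?_
    rw [map_smul, Matrix.mul_smul, Matrix.trace_smul, smul_eq_mul, smul_eq_mul, mul_comm]
  have hcen : ∀ y ∈ T.G K, y * h - h * y = 0 := by
    intro y hy
    apply hnd _ (hG.lie y hy h hhG)
    intro x hx
    have h1 := hbr x hx y hy
    rw [hrep _ (hG.lie x hx y hy), Matrix.sub_mul, Matrix.trace_sub] at h1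
    rw [Matrix.sub_mul, Matrix.trace_sub, Matrix.trace_mul_cycle y h x,
      Matrix.trace_mul_cycle h y x, Matrix.trace_mul_cycle x h y]
    exact h1
  have hh0 : h = 0 := by
    refine hd_central hP d hm (T.G_le_hd hD hhG) fun y hy => ?_
    have hle' := hG.hd_le hK hD hKS hSS hZ hP d hm hW
    exact (sub_eq_zero.1 (hcen y (hle' hy))).symm
  obtain ⟨D, hDl⟩ := exists_lam
  have h1 : a (T.X D) = 0 := by
    rw [hrep _ (T.X_mem hK D), hh0, Matrix.mul_zero, Matrix.trace_zero]
  change killM (Matrix.toLin' (T.X D)) f v = 0 at h1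
  rw [killM_twist hK hf D, _root_.smul_apply, smul_eq_mul] at h1
  have h2 : (k : ℂ) * lam D ≠ 0 := mul_ne_zero (Int.cast_ne_zero.2 hk) hDl
  exact (mul_eq_zero.1 h1).resolve_left h2

/-- **Theorem.** De Rham-Betti classes on the tensor powers of a motive of K3 type with real
multiplication by the field `E` are combinations of Hodge classes, if the dimension `m` of the
motive over `E` is different from five. -/
theorem drb_hodge (T : K3Motive ι) (K : IntermediateField ℚ ℂ) (hK : ∀ x ∈ K, IsAlgebraic ℚ x)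
    (hD : T.HodgeDeRham) (hKS : T.KugaSatake K) (hSS : T.Semisimple K) (hZ : T.Zarhin)
    (hW : ∀ m, 3 ≤ m → m ≠ 5 → SphereProperty m)
    (P : Matrix ι ι ℚ) (hP : T.RealMultiplication P) (m : ℕ)
    (hm : Fintype.card ι = m * (minpoly ℚ P).natDegree) (h5 : m ≠ 5) (k : ℤ) (n : ℕ)
    (f : Form ι (Fin n)) (hf : T.IsTwistedDRB K k f) :
    f ∈ Submodule.span K {g : Form ι (Fin n) | T.IsHodge g} ∧ (k ≠ 0 → f = 0) := by
  obtain ⟨d⟩ := Pool.Agent.W249.KT.t_DEC ι T.Q P m T.Q_symm T.Q_det hP.2.2.1 hP.2.2.2 hm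
  have h3 := three_le hZ hP d
  have h0 : k ≠ 0 → f = 0 := fun hk =>
    twist_zero hK hD hKS hSS hZ hP d h3 (hW m h3 h5) hk hf
  refine ⟨?_, h0⟩
  by_cases hk : k = 0
  · subst hk
    have hf' : T.IsDRB K f := ⟨hf.1, fun I => by
      have := hf.2 I
      rwa [zpow_zero, one_mul] at this⟩
    have hle := (T.G_gen hK).hd_le hK hD hKS hSS hZ hP d h3 (hW m h3 h5)
    exact hodge_of_ann hZ hf.1 fun x hx => hle hx n f hf'
  · rw [h0 hk]
    exact Submodule.zero_mem _

/-- Combinations of Hodge classes are de Rham-Betti classes. -/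
theorem drb_of_hodge (hK : ∀ x ∈ K, IsAlgebraic ℚ x) (hD : T.HodgeDeRham) {n : ℕ}
    {f : Form ι (Fin n)} (hf : f ∈ Submodule.span K {g : Form ι (Fin n) | T.IsHodge g}) :
    T.IsTwistedDRB K 0 f := by
  have halg : ∀ z : ℂ, z ∈ algebraicClosure ℚ ℂ ↔ IsAlgebraic ℚ z := fun z =>
    mem_algebraicClosure_iff
  have h1 : HasCoeff K f ∧ T.IsDeRham f := by
    induction hf using Submodule.span_induction with
    | mem g hg => exact ⟨coeff_mono hg.1, hD n g hg⟩
    | zero => exact ⟨fun I => zero_mem _, fun I => isAlgebraic_zero⟩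
    | add g g' _ _ hg hg' =>
      refine ⟨fun I => add_mem (hg.1 I) (hg'.1 I), fun I => ?_⟩
      rw [← halg]
      exact add_mem ((halg _).2 (hg.2 I)) ((halg _).2 (hg'.2 I))
    | smul c g _ hg =>
      refine ⟨fun I => mul_mem c.2 (hg.1 I), fun I => ?_⟩
      rw [← halg]
      exact mul_mem ((halg _).2 (hK _ c.2)) ((halg _).2 (hg.2 I))
  refine ⟨h1.1, fun I => ?_⟩
  rw [zpow_zero, one_mul]
  exact h1.2 I

end

end Pool.Agent.W537.KT
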